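import Pool.Agent.Lib.MP_a54cc7_an.Defs

set_option autoImplicit false

namespace Pool.Agent.Lib.MP_a54cc7_an

open scoped ENNReal

variable {𝕜 : Type*} [RCLike 𝕜]

lemma smooth_functional {X : Type*} [NormedAddCommGroup X] [NormedSpace 𝕜 X]
    (hX : UniformlySmooth X) (ε : ℝ) (hε : 0 < ε) :
    ∃ δ : ℝ, 0 < δ ∧ ∀ (x₀ : X) (f g : X →L[𝕜] 𝕜), ‖x₀‖ = 1 → ‖f‖ ≤ 1 → ‖g‖ ≤ 1 →
      g x₀ = 1 → 1 - δ < ‖f x₀‖ → ∃ l : 𝕜, ‖l‖ = 1 ∧ ‖f - l • g‖ < ε := by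
  obtain ⟨t, ht, hs⟩ := hX (ε / 3) (by positivity)
  refine ⟨min (t * ε / 3) (1 / 2), by positivity, ?_⟩
  intro x₀ f g hx hf hg hgx hfx
  have hfx0 : 0 < ‖f x₀‖ := by
    have : min (t * ε / 3) (1 / 2) ≤ 1 / 2 := min_le_right _ _
    linarith
  have hfxne : f x₀ ≠ 0 := norm_pos_iff.mp hfx0
  set l : 𝕜 := f x₀ / (‖f x₀‖ : 𝕜) with hl
  have hnl : ‖l‖ = 1 := by
    rw [hl, norm_div, RCLike.norm_ofReal, abs_of_pos hfx0, div_self hfx0.ne']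
  have hlne : l ≠ 0 := by
    rw [← norm_pos_iff, hnl]; exact one_pos
  refine ⟨l, hnl, ?_⟩
  -- f = l • f', f' = l⁻¹ • f
  have key : ∀ y : X, ‖y‖ = t → RCLike.re ((l⁻¹ • f - g) y) ≤ t * (2 * ε / 3) := by
    intro y hy
    have h1 := hs x₀ y hx hy.le
    have hlinv : ‖l⁻¹‖ = 1 := by rw [norm_inv, hnl, inv_one]
    have h2 : RCLike.re ((l⁻¹ • f) (x₀ + y)) ≤ ‖x₀ + y‖ := by
      calc _ ≤ ‖(l⁻¹ • f) (x₀ + y)‖ := RCLike.re_le_norm _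
        _ ≤ ‖l⁻¹ • f‖ * ‖x₀ + y‖ := ContinuousLinearMap.le_opNorm _ _
        _ ≤ 1 * ‖x₀ + y‖ := by
          gcongr
          rw [norm_smul, hlinv, one_mul]; exact hf
        _ = _ := one_mul _
    have h3 : RCLike.re (g (x₀ - y)) ≤ ‖x₀ - y‖ := by
      calc _ ≤ ‖g (x₀ - y)‖ := RCLike.re_le_norm _
        _ ≤ ‖g‖ * ‖x₀ - y‖ := ContinuousLinearMap.le_opNorm _ _
        _ ≤ 1 * ‖x₀ - y‖ := by gcongr
        _ = _ := one_mul _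
    have h4 : (l⁻¹ • f) x₀ = (‖f x₀‖ : 𝕜) := by
      rw [ContinuousLinearMap.smul_apply, smul_eq_mul, hl, inv_div, div_mul_cancel₀ _ hfxne]
    have h5 : RCLike.re ((l⁻¹ • f) (x₀ + y)) = ‖f x₀‖ + RCLike.re ((l⁻¹ • f) y) := by
      rw [map_add, h4, map_add, RCLike.ofReal_re]
    have h6 : RCLike.re (g (x₀ - y)) = 1 - RCLike.re (g y) := by
      rw [map_sub, hgx, map_sub, RCLike.one_re]
    have h7 : RCLike.re ((l⁻¹ • f - g) y) = RCLike.re ((l⁻¹ • f) y) - RCLike.re (g y) := by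
      rw [ContinuousLinearMap.sub_apply, map_sub]
    rw [h7]
    rw [h5] at h2
    rw [h6] at h3
    rw [hy] at h1
    have h8 : 1 - ‖f x₀‖ ≤ t * ε / 3 := by
      have : min (t * ε / 3) (1 / 2) ≤ t * ε / 3 := min_le_left _ _
      linarith
    nlinarith
  have hnorm : ‖l⁻¹ • f - g‖ ≤ 2 * ε / 3 := by
    refine ContinuousLinearMap.opNorm_le_bound _ (by positivity) ?_
    intro y
    rcases eq_or_ne y 0 with rfl | hy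
    · simp
    have hy0 : 0 < ‖y‖ := norm_pos_iff.mpr hy
    set w : 𝕜 := (l⁻¹ • f - g) y with hw
    rcases eq_or_ne w 0 with h0 | h0
    · rw [h0, norm_zero]; positivity
    have hw0 : 0 < ‖w‖ := norm_pos_iff.mpr h0
    -- rotate
    let r : 𝕜 := (((t / ‖y‖ : ℝ)) : 𝕜) * ((starRingEnd 𝕜) w / (‖w‖ : 𝕜))
    have hr : ‖r • y‖ = t := by
      rw [norm_smul, norm_mul, norm_div, RCLike.norm_ofReal, RCLike.norm_ofReal, RCLike.norm_conj,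
        abs_of_pos hw0, div_self hw0.ne', abs_of_pos (by positivity)]
      field_simp
    have h1 := key (r • y) hr
    have h2 : (l⁻¹ • f - g) (r • y) = ((t / ‖y‖ * ‖w‖ : ℝ) : 𝕜) := by
      rw [map_smul, ← hw, smul_eq_mul]
      show (((t / ‖y‖ : ℝ)) : 𝕜) * ((starRingEnd 𝕜) w / (‖w‖ : 𝕜)) * w = _
      have hwn : ((‖w‖ : ℝ) : 𝕜) ≠ 0 := by
        rw [Ne, RCLike.ofReal_eq_zero]; exact hw0.ne'
      have : (starRingEnd 𝕜) w / (‖w‖ : 𝕜) * w = (‖w‖ : 𝕜) := by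
        rw [div_mul_eq_mul_div, RCLike.conj_mul, div_eq_iff hwn, sq]
      rw [mul_assoc, this]
      push_cast
      ring
    rw [h2, RCLike.ofReal_re] at h1
    have h3 : t / ‖y‖ * ‖w‖ = t * (‖w‖ / ‖y‖) := by ring
    rw [h3] at h1
    have h4 : ‖w‖ / ‖y‖ ≤ 2 * ε / 3 := le_of_mul_le_mul_left h1 ht
    rwa [div_le_iff₀ hy0] at h4
  have h9 : f - l • g = l • (l⁻¹ • f - g) := by
    rw [smul_sub, smul_smul, mul_inv_cancel₀ hlne, one_smul]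
  rw [h9, norm_smul, hnl, one_mul]
  linarith

/-- `ℓ₄` is uniformly smooth. -/
lemma pointwise_four (a b : 𝕜) :
    ‖a + b‖ ^ 4 + ‖a - b‖ ^ 4 ≤ 2 * (‖a‖ ^ 4 + 6 * (‖a‖ ^ 2 * ‖b‖ ^ 2) + ‖b‖ ^ 4) := by
  have h1 : ‖a + b‖ ^ 2 = ‖a‖ ^ 2 + 2 * RCLike.re (a * (starRingEnd 𝕜) b) + ‖b‖ ^ 2 := by
    have := @norm_add_sq 𝕜 𝕜 _ _ _ b a
    rw [add_comm b a, RCLike.inner_apply] at this
    linarith
  have h2 : ‖a - b‖ ^ 2 = ‖a‖ ^ 2 - 2 * RCLike.re (a * (starRingEnd 𝕜) b) + ‖b‖ ^ 2 := by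
    have := @norm_sub_sq 𝕜 𝕜 _ _ _ b a
    rw [norm_sub_rev b a, RCLike.inner_apply] at this
    linarith
  have h3 : (RCLike.re (a * (starRingEnd 𝕜) b)) ^ 2 ≤ ‖a‖ ^ 2 * ‖b‖ ^ 2 := by
    have h := RCLike.abs_re_le_norm (a * (starRingEnd 𝕜) b)
    rw [norm_mul, RCLike.norm_conj] at h
    calc _ = |RCLike.re (a * (starRingEnd 𝕜) b)| ^ 2 := (sq_abs _).symm
      _ ≤ (‖a‖ * ‖b‖) ^ 2 := by gcongr
      _ = _ := by ring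
  have h4 : ‖a + b‖ ^ 4 = (‖a + b‖ ^ 2) ^ 2 := by ring
  have h5 : ‖a - b‖ ^ 4 = (‖a - b‖ ^ 2) ^ 2 := by ring
  rw [h4, h5, h1, h2]
  nlinarith

lemma l4_norm_pow (x : lp (fun _ : ℕ => 𝕜) 4) : HasSum (fun i => ‖x i‖ ^ 4) (‖x‖ ^ 4) := by
  have h := lp.hasSum_norm (p := 4) (by simp) x
  have e : ((4 : ℝ≥0∞)).toReal = ((4 : ℕ) : ℝ) := by simp
  rw [e] at h
  simpa only [Real.rpow_natCast] using h

lemma l4_smooth : UniformlySmooth (lp (fun _ : ℕ => 𝕜) 4) := by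
  intro ε hε
  refine ⟨ε / 3, by positivity, ?_⟩
  intro x y hx hy
  rcases eq_or_ne y 0 with rfl | hy0
  · simp [hx]; norm_num
  have ht : 0 < ‖y‖ := norm_pos_iff.mpr hy0
  set t := ‖y‖ with ht_def
  have hx4 := l4_norm_pow x
  have hy4 := l4_norm_pow y
  have hp4 := l4_norm_pow (x + y)
  have hm4 := l4_norm_pow (x - y)
  rw [hx] at hx4
  rw [← ht_def] at hy4
  have hsum := hp4.add hm4
  have hR : HasSum (fun i => 2 * ((1 + 3 * t ^ 2) * ‖x i‖ ^ 4 + (1 + 3 / t ^ 2) * ‖y i‖ ^ 4))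
      (2 * ((1 + 3 * t ^ 2) * 1 ^ 4 + (1 + 3 / t ^ 2) * t ^ 4)) :=
    ((hx4.mul_left _).add (hy4.mul_left _)).mul_left 2
  have hle := hasSum_le (fun i => ?_) hsum hR
  swap
  · have h := pointwise_four (x i) (y i)
    have e1 : (x + y) i = x i + y i := rfl
    have e2 : (x - y) i = x i - y i := rfl
    rw [e1, e2]
    refine h.trans ?_
    have h2 : 6 * (‖x i‖ ^ 2 * ‖y i‖ ^ 2) ≤ 3 * t ^ 2 * ‖x i‖ ^ 4 + 3 / t ^ 2 * ‖y i‖ ^ 4 := by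
      have h3 : 0 ≤ 3 * (t * ‖x i‖ ^ 2 - ‖y i‖ ^ 2 / t) ^ 2 := by positivity
      have h4 : 3 * (t * ‖x i‖ ^ 2 - ‖y i‖ ^ 2 / t) ^ 2 =
          3 * t ^ 2 * ‖x i‖ ^ 4 + 3 / t ^ 2 * ‖y i‖ ^ 4 - 6 * (‖x i‖ ^ 2 * ‖y i‖ ^ 2) := by
        field_simp
        ring
      linarith
    nlinarith
  have h1 : ‖x + y‖ ^ 4 + ‖x - y‖ ^ 4 ≤ 2 * (1 + 3 * t ^ 2) ^ 2 := by
    refine hle.trans ?_
    have : 2 * ((1 + 3 * t ^ 2) * 1 ^ 4 + (1 + 3 / t ^ 2) * t ^ 4) = 2 * (1 + 6 * t ^ 2 + t ^ 4) := by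
      field_simp
      ring
    rw [this]
    nlinarith [sq_nonneg (t ^ 2)]
  set P := ‖x + y‖ with hP
  set Q := ‖x - y‖ with hQ
  have hP0 : 0 ≤ P := norm_nonneg _
  have hQ0 : 0 ≤ Q := norm_nonneg _
  have h2 : ((P + Q) / 2) ^ 4 ≤ (1 + 3 * t ^ 2) ^ 2 := by
    have h3 : ((P + Q) / 2) ^ 4 ≤ (P ^ 4 + Q ^ 4) / 2 := by
      nlinarith [sq_nonneg (P - Q), sq_nonneg (P ^ 2 - Q ^ 2), mul_nonneg hP0 hQ0,
        sq_nonneg (P + Q), mul_nonneg (sq_nonneg (P - Q)) (sq_nonneg (P + Q)),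
        mul_nonneg (sq_nonneg (P - Q)) (mul_nonneg hP0 hQ0), sq_nonneg ((P - Q) ^ 2)]
    linarith
  have h4 : ((P + Q) / 2) ^ 2 ≤ 1 + 3 * t ^ 2 := by
    have h5 : (((P + Q) / 2) ^ 2) ^ 2 ≤ (1 + 3 * t ^ 2) ^ 2 := by
      calc _ = ((P + Q) / 2) ^ 4 := by ring
        _ ≤ _ := h2
    exact le_of_sq_le_sq h5 (by positivity)
  have h6 : (P + Q) / 2 ≤ 1 + 3 * t ^ 2 / 2 := by
    refine le_of_sq_le_sq (h4.trans ?_) (by positivity)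
    nlinarith [sq_nonneg (t ^ 2)]
  have h7 : 3 * t ^ 2 ≤ ε * t := by
    nlinarith
  linarith

end Pool.Agent.Lib.MP_a54cc7_an
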