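import Pool.Agent.Lib.MP_a54cc7_an.Space
import Pool.Agent.Lib.MP_a54cc7_an.Smooth

set_option autoImplicit false

namespace Pool.Agent.Lib.MP_a54cc7_an

open scoped ENNReal
open Filter Topology

noncomputable section

variable {𝕜 : Type*} [RCLike 𝕜]

lemma pr_good (f : YT 𝕜) (k n : ℕ) :
    Good (fun m => cd f (k, m % 2 ^ n, some 0))
      (fun m => if m < 2 ^ n then cd f (k, m, none) else 0) := by
  refine ⟨⟨‖f‖, fun m => ⟨norm_cd _ _, ?_⟩⟩, ?_⟩
  · dsimp only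
    split_ifs
    · exact norm_cd _ _
    · simp
  · intro ε hε
    refine ⟨n, fun n' hn m => ⟨fun hm => ?_, ?_⟩⟩
    · have : ¬ m < 2 ^ n := by
        have : 2 ^ n ≤ 2 ^ n' := Nat.pow_le_pow_right (by norm_num) hn
        omega
      simp only [this, if_false, norm_zero]
      exact hε.le
    · dsimp only
      rw [Nat.mod_mod_of_dvd _ (pow_dvd_pow 2 hn), sub_self, norm_zero]
      exact hε.le

def pr (k n : ℕ) : YT 𝕜 →L[𝕜] YT 𝕜 :=
  LinearMap.mkContinuous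
    { toFun := fun f => pt f k _ _ (pr_good f k n)
      map_add' := by
        intro f g
        have e := @cd_add 𝕜 _
        apply yt_ext
        · intro k' m
          rw [e]
          by_cases hk : k' = k
          · subst hk
            rw [pt_a, pt_a, pt_a, e]
          · rw [pt_ne _ _ _ _ _ _ _ _ hk, pt_ne _ _ _ _ _ _ _ _ hk,
              pt_ne _ _ _ _ _ _ _ _ hk, e]
        · intro k' m
          rw [e]
          by_cases hk : k' = k
          · subst hk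
            rw [pt_b, pt_b, pt_b]
            split_ifs
            · rw [e]
            · simp
          · rw [pt_ne _ _ _ _ _ _ _ _ hk, pt_ne _ _ _ _ _ _ _ _ hk,
              pt_ne _ _ _ _ _ _ _ _ hk, e]
      map_smul' := by
        intro c f
        have e := @cd_smul 𝕜 _
        rw [RingHom.id_apply]
        apply yt_ext
        · intro k' m
          rw [e]
          by_cases hk : k' = k
          · subst hk
            rw [pt_a, pt_a, e]
          · rw [pt_ne _ _ _ _ _ _ _ _ hk, pt_ne _ _ _ _ _ _ _ _ hk, e]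
        · intro k' m
          rw [e]
          by_cases hk : k' = k
          · subst hk
            rw [pt_b, pt_b]
            split_ifs
            · rw [e]
            · simp
          · rw [pt_ne _ _ _ _ _ _ _ _ hk, pt_ne _ _ _ _ _ _ _ _ hk, e] } 1
    (by
      intro f
      rw [one_mul]
      refine yt_norm_le _ (norm_nonneg _) ?_
      rintro ⟨k', m, j⟩
      show ‖cd (pt f k _ _ (pr_good f k n)) (k', m, j)‖ ≤ ‖f‖
      by_cases hk : k' = k
      · subst hk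
        rw [pt_same]
        by_cases hm : m < 2 ^ n
        · rw [if_pos hm, Nat.mod_eq_of_lt hm, ← cd_eq]
          exact norm_cd _ _
        · rw [if_neg hm, mul_zero, add_zero, norm_mul, RCLike.norm_ofReal,
            abs_of_nonneg (ca_nonneg _ _)]
          calc _ ≤ 1 * ‖f‖ := mul_le_mul (ca_le_one _ _) (norm_cd _ _) (norm_nonneg _) zero_le_one
            _ = _ := one_mul _
      · rw [pt_ne _ _ _ _ _ _ _ _ hk]
        exact norm_cd _ _)

lemma pr_ne (k n : ℕ) (f : YT 𝕜) (k' m : ℕ) (j : Option ℤ) (hk : k' ≠ k) :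
    cd (pr k n f) (k', m, j) = cd f (k', m, j) :=
  pt_ne f k _ _ (pr_good f k n) k' m j hk

lemma pr_lt (k n : ℕ) (f : YT 𝕜) (m : ℕ) (j : Option ℤ) (hm : m < 2 ^ n) :
    cd (pr k n f) (k, m, j) = cd f (k, m, j) := by
  refine (pt_same f k _ _ (pr_good f k n) m j).trans ?_
  rw [if_pos hm, Nat.mod_eq_of_lt hm, ← cd_eq]

lemma pr_ge (k n : ℕ) (f : YT 𝕜) (m : ℕ) (j : Option ℤ) (hm : 2 ^ n ≤ m) :
    cd (pr k n f) (k, m, j) = (ca k j : 𝕜) * cd f (k, m % 2 ^ n, some 0) := by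
  refine (pt_same f k _ _ (pr_good f k n) m j).trans ?_
  rw [if_neg (not_lt.mpr hm), mul_zero, add_zero]

lemma pr_norm (k n : ℕ) (f : YT 𝕜) : ‖pr k n f‖ ≤ ‖f‖ := by
  have h : ‖(pr k n : YT 𝕜 →L[𝕜] YT 𝕜)‖ ≤ 1 := LinearMap.mkContinuous_norm_le _ zero_le_one _
  calc _ ≤ ‖(pr k n : YT 𝕜 →L[𝕜] YT 𝕜)‖ * ‖f‖ := ContinuousLinearMap.le_opNorm _ _
    _ ≤ 1 * ‖f‖ := by gcongr
    _ = _ := one_mul _

lemma pr_tendsto (k : ℕ) (f : YT 𝕜) (δ : ℝ) (hδ : 0 < δ) :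
    ∃ N, ∀ n, N ≤ n → ‖pr k n f - f‖ ≤ δ := by
  obtain ⟨N, hN⟩ := yt_ev f k (δ / 2) (by positivity)
  refine ⟨N, fun n hn => yt_norm_le _ hδ.le ?_⟩
  rintro ⟨k', m, j⟩
  rw [cd_sub]
  by_cases hk : k' = k
  · subst hk
    obtain ⟨h1, h2⟩ := hN n hn m
    by_cases hm : m < 2 ^ n
    · rw [pr_lt _ _ _ _ _ hm, sub_self, norm_zero]; exact hδ.le
    · rw [not_lt] at hm
      rw [pr_ge _ _ _ _ _ hm, cd_eq f k' m j]
      have e2 : (ca k' j : 𝕜) * cd f (k', m % 2 ^ n, some 0) -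
          ((ca k' j : 𝕜) * cd f (k', m, some 0) + (cb k' j : 𝕜) * cd f (k', m, none)) =
          (ca k' j : 𝕜) * (cd f (k', m % 2 ^ n, some 0) - cd f (k', m, some 0)) +
          (cb k' j : 𝕜) * (-cd f (k', m, none)) := by ring
      rw [e2]
      refine (norm_comb_le k' j _ _ (C := δ / 2) (D := δ / 2) ?_ ?_).trans (by linarith)
      · rw [norm_sub_rev]; exact h2
      · rw [norm_neg]; exact h1 hm
  · rw [pr_ne _ _ _ _ _ _ hk, sub_self, norm_zero]; exact hδ.le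

variable {X : Type*} [NormedAddCommGroup X] [NormedSpace 𝕜 X]

lemma opNorm_le_of_ball (R : X →L[𝕜] YT 𝕜) (δ : ℝ) (hδ : 0 ≤ δ)
    (h : ∀ x, ‖x‖ ≤ 1 → ‖R x‖ ≤ δ) : ‖R‖ ≤ δ := by
  refine ContinuousLinearMap.opNorm_le_bound _ hδ fun x => ?_
  rcases eq_or_ne x 0 with rfl | hx
  · simp
  have hx0 : 0 < ‖x‖ := norm_pos_iff.mpr hx
  have h1 := h (((‖x‖⁻¹ : ℝ) : 𝕜) • x) (by
    rw [norm_smul, RCLike.norm_ofReal, abs_of_pos (inv_pos.mpr hx0), inv_mul_cancel₀ hx0.ne'])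
  rw [map_smul, norm_smul, RCLike.norm_ofReal, abs_of_pos (inv_pos.mpr hx0),
    inv_mul_le_iff₀ hx0] at h1
  linarith

lemma compact_approx (T : X →L[𝕜] YT 𝕜) (hT : IsCompactOperator T) (k : ℕ) (δ : ℝ)
    (hδ : 0 < δ) : ∃ N, ∀ n, N ≤ n → ‖(pr k n).comp T - T‖ ≤ δ := by
  have hc : IsCompact (closure (T '' Metric.closedBall 0 1)) :=
    IsCompactOperator.isCompact_closure_image_closedBall (𝕜₁ := 𝕜) (f := (T : X →ₗ[𝕜] YT 𝕜)) hT 1
  have htb := hc.totallyBounded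
  rw [Metric.totallyBounded_iff] at htb
  obtain ⟨t, ht, hcov⟩ := htb (δ / 3) (by positivity)
  have hN : ∀ y : YT 𝕜, ∃ N, ∀ n, N ≤ n → ‖pr k n y - y‖ ≤ δ / 3 :=
    fun y => pr_tendsto k y _ (by positivity)
  choose N hN using hN
  obtain ⟨B, hB⟩ := (ht.image N).bddAbove
  refine ⟨B, fun n hn => opNorm_le_of_ball _ _ hδ.le fun x hx => ?_⟩
  have hx' : T x ∈ closure (T '' Metric.closedBall 0 1) :=
    subset_closure ⟨x, by simpa using hx, rfl⟩
  obtain ⟨y, hy, hxy⟩ := Set.mem_iUnion₂.mp (hcov hx')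
  have hNy : N y ≤ n := (hB ⟨y, hy, rfl⟩).trans hn
  rw [Metric.mem_ball, dist_eq_norm] at hxy
  have e : ((pr k n).comp T - T) x = pr k n (T x - y) + (pr k n y - y) - (T x - y) := by
    rw [map_sub]
    show pr k n (T x) - T x = _
    abel
  rw [e]
  calc _ ≤ ‖pr k n (T x - y) + (pr k n y - y)‖ + ‖T x - y‖ := norm_sub_le _ _
    _ ≤ (‖pr k n (T x - y)‖ + ‖pr k n y - y‖) + ‖T x - y‖ := by
      gcongr; exact norm_add_le _ _
    _ ≤ (δ / 3 + δ / 3) + δ / 3 := by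
      refine add_le_add (add_le_add ((pr_norm _ _ _).trans hxy.le) (hN y n hNy)) hxy.le
    _ = δ := by ring

lemma compact_smulRight (g : X →L[𝕜] 𝕜) (y : YT 𝕜) : IsCompactOperator (g.smulRight y) := by
  have h1 : IsCompactOperator g := isCompactOperator_of_locallyCompactSpace_dom (T := g)
  have h2 := h1.clm_comp (ContinuousLinearMap.toSpanSingleton 𝕜 y)
  have e : (g.smulRight y : X → YT 𝕜) = (ContinuousLinearMap.toSpanSingleton 𝕜 y) ∘ g := by
    funext x; simp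
  rw [e]
  exact h2

/-- coordinate functional -/
def co (p : Idx) (T : X →L[𝕜] YT 𝕜) : X →L[𝕜] 𝕜 := (cdL p).comp T

lemma co_apply (p : Idx) (T : X →L[𝕜] YT 𝕜) (x : X) : co p T x = cd (T x) p := rfl

lemma co_norm (p : Idx) (T : X →L[𝕜] YT 𝕜) : ‖co p T‖ ≤ ‖T‖ := by
  refine ContinuousLinearMap.opNorm_le_bound _ (norm_nonneg _) fun x => ?_
  rw [co_apply]
  exact (norm_cd _ _).trans (T.le_opNorm x)

/-- first repair: a fresh cell -/
lemma fixA (T₀ : X →L[𝕜] YT 𝕜) (hT₀ : ‖T₀‖ ≤ 1) (k n m₀ : ℕ) (hm₀ : m₀ < 2 ^ n)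
    (x' : X →L[𝕜] 𝕜) (hx' : ‖x'‖ ≤ 1) :
    ∃ y : YT 𝕜, ‖y‖ ≤ 1 ∧
      (∀ x, ‖((pr k n).comp T₀ + (x' - co (k, m₀, some 0) T₀).smulRight y) x‖ ≤ ‖x‖) ∧
      ∃ p : Idx, ∀ x,
        cd (((pr k n).comp T₀ + (x' - co (k, m₀, some 0) T₀).smulRight y) x) p = x' x := by
  have hgood : Good (fun m => if m % 2 ^ (n + 1) = m₀ + 2 ^ n then (1 : 𝕜) else 0)
      (fun _ => (0 : 𝕜)) := by
    refine ⟨⟨1, fun m => ⟨?_, by simp⟩⟩, ?_⟩
    · dsimp only; split_ifs <;> simp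
    · intro ε hε
      refine ⟨n + 1, fun n' hn m => ⟨fun _ => by simpa using hε.le, ?_⟩⟩
      dsimp only
      rw [Nat.mod_mod_of_dvd _ (pow_dvd_pow 2 hn), sub_self, norm_zero]
      exact hε.le
  set y : YT 𝕜 := pt 0 k _ _ hgood with hy
  have hT0x : ∀ x, ‖T₀ x‖ ≤ ‖x‖ := fun x => by
    calc _ ≤ ‖T₀‖ * ‖x‖ := T₀.le_opNorm x
      _ ≤ 1 * ‖x‖ := by gcongr
      _ = _ := one_mul _
  have hval : ∀ (x : X) (k' m : ℕ) (j : Option ℤ),
      cd (((pr k n).comp T₀ + (x' - co (k, m₀, some 0) T₀).smulRight y) x) (k', m, j) =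
      cd (pr k n (T₀ x)) (k', m, j) +
        (x' x - cd (T₀ x) (k, m₀, some 0)) * cd y (k', m, j) := fun _ _ _ _ => rfl
  have hcell : ∀ (x : X) (m : ℕ) (j : Option ℤ), m % 2 ^ (n + 1) = m₀ + 2 ^ n →
      cd (((pr k n).comp T₀ + (x' - co (k, m₀, some 0) T₀).smulRight y) x) (k, m, j) =
      (ca k j : 𝕜) * x' x := by
    intro x m j hm
    have hmge : 2 ^ n ≤ m := by
      have := Nat.mod_le m (2 ^ (n + 1))
      omega
    have hmod : m % 2 ^ n = m₀ := by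
      have h1 : (m % 2 ^ (n + 1)) % 2 ^ n = m % 2 ^ n := Nat.mod_mod_of_dvd _ (pow_dvd_pow 2 (by omega))
      rw [← h1, hm, Nat.add_mod_right, Nat.mod_eq_of_lt hm₀]
    rw [hval, pr_ge _ _ _ _ _ hmge, hmod, hy, pt_same, if_pos hm]
    ring
  refine ⟨y, ?_, ?_, (k, m₀ + 2 ^ n, some 0), ?_⟩
  · refine yt_norm_le _ zero_le_one ?_
    rintro ⟨k', m, j⟩
    by_cases hk : k' = k
    · subst hk
      rw [hy, pt_same, mul_zero, add_zero]
      split_ifs
      · rw [mul_one, RCLike.norm_ofReal, abs_of_nonneg (ca_nonneg _ _)]; exact ca_le_one _ _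
      · simp
    · rw [hy, pt_ne _ _ _ _ _ _ _ _ hk]
      rw [cd_zero, norm_zero]; exact zero_le_one
  · intro x
    refine yt_norm_le _ (norm_nonneg _) ?_
    rintro ⟨k', m, j⟩
    by_cases hk : k' = k
    · subst hk
      by_cases hm : m % 2 ^ (n + 1) = m₀ + 2 ^ n
      · rw [hcell x m j hm, norm_mul, RCLike.norm_ofReal, abs_of_nonneg (ca_nonneg _ _)]
        calc ca k' j * ‖x' x‖ ≤ 1 * ‖x' x‖ := by gcongr; exact ca_le_one _ _
          _ ≤ 1 * (‖x'‖ * ‖x‖) := by gcongr; exact x'.le_opNorm x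
          _ ≤ 1 * (1 * ‖x‖) := by gcongr
          _ = ‖x‖ := by ring
      · rw [hval, hy, pt_same, if_neg hm]
        simp only [mul_zero, add_zero]
        exact ((norm_cd _ _).trans (pr_norm _ _ _)).trans (hT0x x)
    · rw [hval, hy, pt_ne _ _ _ _ _ _ _ _ hk]
      rw [cd_zero, mul_zero, add_zero]
      exact ((norm_cd _ _).trans (pr_norm _ _ _)).trans (hT0x x)
  · intro x
    have hlt : m₀ + 2 ^ n < 2 ^ (n + 1) := by rw [pow_succ]; omega
    rw [hcell x _ _ (Nat.mod_eq_of_lt hlt), ca_zero]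
    simp

/-- second repair: a peak vector -/
lemma fixB (T₀ : X →L[𝕜] YT 𝕜) (hT₀ : ‖T₀‖ ≤ 1) (k n m₀ : ℕ) (hm₀ : m₀ < 2 ^ n)
    (j₀ : Option ℤ) (za zb ρ κ : ℝ) (hz : ca k j₀ * za + cb k j₀ * zb = 1)
    (hzj : ∀ j, j ≠ j₀ → |ca k j * za + cb k j * zb| ≤ ρ) (hρ0 : 0 ≤ ρ) (hρ1 : ρ ≤ 1) (hκ : 0 ≤ κ)
    (x' : X →L[𝕜] 𝕜) (hx' : ‖x'‖ ≤ 1)
    (hκρ : ρ * (‖x' - co (k, m₀, j₀) T₀‖ + κ) ≤ κ) :
    ∃ y : YT 𝕜, ‖y‖ ≤ 1 ∧
      (∀ x, ‖((pr k n).comp T₀ +
        (((1 + κ : ℝ) : 𝕜) • x' - co (k, m₀, j₀) T₀).smulRight y) x‖ ≤ (1 + κ) * ‖x‖) ∧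
      ∃ p : Idx, ∀ x,
        cd (((pr k n).comp T₀ + (((1 + κ : ℝ) : 𝕜) • x' - co (k, m₀, j₀) T₀).smulRight y) x) p =
          ((1 + κ : ℝ) : 𝕜) * x' x := by
  have hgood : Good (fun m => if m % 2 ^ n = m₀ then (za : 𝕜) else 0)
      (fun m => if m = m₀ then (zb : 𝕜) else 0) := by
    refine ⟨⟨max |za| |zb|, fun m => ⟨?_, ?_⟩⟩, ?_⟩
    · dsimp only; split_ifs
      · rw [RCLike.norm_ofReal]; exact le_max_left _ _
      · rw [norm_zero]; exact (abs_nonneg _).trans (le_max_left _ _)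
    · dsimp only; split_ifs
      · rw [RCLike.norm_ofReal]; exact le_max_right _ _
      · rw [norm_zero]; exact (abs_nonneg _).trans (le_max_left _ _)
    · intro ε hε
      refine ⟨n, fun n' hn m => ⟨fun hm => ?_, ?_⟩⟩
      · have h1 : 2 ^ n ≤ 2 ^ n' := Nat.pow_le_pow_right (by norm_num) hn
        have h2 : m ≠ m₀ := by omega
        dsimp only
        rw [if_neg h2, norm_zero]; exact hε.le
      · dsimp only
        rw [Nat.mod_mod_of_dvd _ (pow_dvd_pow 2 hn), sub_self, norm_zero]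
        exact hε.le
  set y : YT 𝕜 := pt 0 k _ _ hgood with hy
  set w : X →L[𝕜] 𝕜 := ((1 + κ : ℝ) : 𝕜) • x' - co (k, m₀, j₀) T₀ with hw
  have hT0x : ∀ x, ‖T₀ x‖ ≤ ‖x‖ := fun x => by
    calc _ ≤ ‖T₀‖ * ‖x‖ := T₀.le_opNorm x
      _ ≤ 1 * ‖x‖ := by gcongr
      _ = _ := one_mul _
  have hwn : ‖w‖ ≤ ‖x' - co (k, m₀, j₀) T₀‖ + κ := by
    have e : w = (x' - co (k, m₀, j₀) T₀) + (κ : 𝕜) • x' := by
      rw [hw]
      refine ContinuousLinearMap.ext fun x => ?_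
      show ((1 + κ : ℝ) : 𝕜) * x' x - co (k, m₀, j₀) T₀ x =
        (x' x - co (k, m₀, j₀) T₀ x) + (κ : 𝕜) * x' x
      push_cast; ring
    rw [e]
    refine (norm_add_le _ _).trans (add_le_add le_rfl ?_)
    rw [norm_smul, RCLike.norm_ofReal, abs_of_nonneg hκ]
    calc κ * ‖x'‖ ≤ κ * 1 := by gcongr
      _ = κ := mul_one _
  have hall : ∀ j, |ca k j * za + cb k j * zb| ≤ 1 := by
    intro j
    by_cases hj : j = j₀
    · rw [hj, hz, abs_one]
    · exact (hzj j hj).trans hρ1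
  have hza : |za| ≤ 1 := by
    have := hall (some 0)
    rwa [ca_zero, cb_zero, one_mul, zero_mul, add_zero] at this
  have hval : ∀ (x : X) (k' m : ℕ) (j : Option ℤ),
      cd (((pr k n).comp T₀ + w.smulRight y) x) (k', m, j) =
      cd (pr k n (T₀ x)) (k', m, j) + w x * cd y (k', m, j) := fun _ _ _ _ => rfl
  have hyval0 : ∀ j, cd y (k, m₀, j) = ((ca k j * za + cb k j * zb : ℝ) : 𝕜) := by
    intro j
    rw [hy, pt_same, if_pos (Nat.mod_eq_of_lt hm₀), if_pos rfl]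
    push_cast; ring
  have hcell0 : ∀ (x : X), cd (((pr k n).comp T₀ + w.smulRight y) x) (k, m₀, j₀) =
      ((1 + κ : ℝ) : 𝕜) * x' x := by
    intro x
    rw [hval, pr_lt _ _ _ _ _ hm₀, hyval0, hz]
    show _ + (((1 + κ : ℝ) : 𝕜) * x' x - cd (T₀ x) (k, m₀, j₀)) * _ = _
    push_cast; ring
  have hbound0 : ∀ (x : X) (j : Option ℤ),
      ‖cd (((pr k n).comp T₀ + w.smulRight y) x) (k, m₀, j)‖ ≤ (1 + κ) * ‖x‖ := by
    intro x j
    by_cases hj : j = j₀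
    · rw [hj, hcell0, norm_mul, RCLike.norm_ofReal, abs_of_nonneg (by linarith)]
      calc (1 + κ) * ‖x' x‖ ≤ (1 + κ) * (‖x'‖ * ‖x‖) := by gcongr; exact x'.le_opNorm x
        _ ≤ (1 + κ) * (1 * ‖x‖) := by gcongr
        _ = _ := by rw [one_mul]
    · rw [hval, hyval0]
      refine (norm_add_le _ _).trans ?_
      have h1 : ‖cd (pr k n (T₀ x)) (k, m₀, j)‖ ≤ ‖x‖ :=
        ((norm_cd _ _).trans (pr_norm _ _ _)).trans (hT0x x)
      have h2 : ‖w x * ((ca k j * za + cb k j * zb : ℝ) : 𝕜)‖ ≤ κ * ‖x‖ := by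
        rw [norm_mul, RCLike.norm_ofReal]
        calc ‖w x‖ * |ca k j * za + cb k j * zb| ≤ (‖w‖ * ‖x‖) * ρ :=
              mul_le_mul (w.le_opNorm x) (hzj j hj) (abs_nonneg _) (by positivity)
          _ ≤ ((‖x' - co (k, m₀, j₀) T₀‖ + κ) * ‖x‖) * ρ := by gcongr
          _ = (ρ * (‖x' - co (k, m₀, j₀) T₀‖ + κ)) * ‖x‖ := by ring
          _ ≤ κ * ‖x‖ := by gcongr
      calc _ ≤ ‖x‖ + κ * ‖x‖ := add_le_add h1 h2
        _ = _ := by ring
  have hκx : ∀ x : X, ‖x‖ ≤ (1 + κ) * ‖x‖ := fun x => by nlinarith [norm_nonneg x]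
  refine ⟨y, ?_, ?_, (k, m₀, j₀), hcell0⟩
  · refine yt_norm_le _ zero_le_one ?_
    rintro ⟨k', m, j⟩
    by_cases hk : k' = k
    · subst hk
      by_cases hm : m = m₀
      · subst hm
        rw [hyval0, RCLike.norm_ofReal]; exact hall j
      · rw [hy, pt_same, if_neg hm, mul_zero, add_zero]
        split_ifs
        · rw [norm_mul, RCLike.norm_ofReal, RCLike.norm_ofReal, abs_of_nonneg (ca_nonneg _ _)]
          calc _ ≤ 1 * 1 := mul_le_mul (ca_le_one _ _) hza (abs_nonneg _) zero_le_one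
            _ = 1 := one_mul _
        · simp
    · rw [hy, pt_ne _ _ _ _ _ _ _ _ hk]
      rw [cd_zero, norm_zero]; exact zero_le_one
  · intro x
    refine yt_norm_le _ (by positivity) ?_
    rintro ⟨k', m, j⟩
    by_cases hk : k' = k
    · subst hk
      by_cases hm : m = m₀
      · subst hm; exact hbound0 x j
      by_cases hm2 : m % 2 ^ n = m₀
      · have hmge : 2 ^ n ≤ m := by
          by_contra hcon
          rw [Nat.mod_eq_of_lt (not_le.mp hcon)] at hm2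
          exact hm hm2
        have h1 := hbound0 x (some 0)
        rw [hval, pr_lt _ _ _ _ _ hm₀, hyval0, ca_zero, cb_zero] at h1
        rw [hval, pr_ge _ _ _ _ _ hmge, hm2, hy, pt_same, if_pos hm2, if_neg hm]
        have e : (ca k' j : 𝕜) * cd (T₀ x) (k', m₀, some 0) +
            w x * ((ca k' j : 𝕜) * (za : 𝕜) + (cb k' j : 𝕜) * 0) =
            (ca k' j : 𝕜) * (cd (T₀ x) (k', m₀, some 0) + w x * ((1 * za + 0 * zb : ℝ) : 𝕜)) := by
          push_cast; ring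
        rw [e, norm_mul, RCLike.norm_ofReal, abs_of_nonneg (ca_nonneg _ _)]
        calc _ ≤ 1 * ((1 + κ) * ‖x‖) := mul_le_mul (ca_le_one _ _) h1 (norm_nonneg _) zero_le_one
          _ = _ := one_mul _
      · rw [hval, hy, pt_same, if_neg hm2, if_neg hm]
        simp only [mul_zero, add_zero]
        exact (((norm_cd _ _).trans (pr_norm _ _ _)).trans (hT0x x)).trans (hκx x)
    · rw [hval, hy, pt_ne _ _ _ _ _ _ _ _ hk]
      rw [cd_zero, mul_zero, add_zero]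
      exact (((norm_cd _ _).trans (pr_norm _ _ _)).trans (hT0x x)).trans (hκx x)

end

end Pool.Agent.Lib.MP_a54cc7_an
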