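import Mathlib

set_option autoImplicit false

namespace Pool.Agent.Lib.MP_a54cc7_an

lemma curve_step (c h ν τ q A B A' B' : ℝ) (hc0 : 0 < c) (hc1 : c ≤ 1 / 4) (hc : c = 64 * h ^ 2)
    (hq : q ^ 2 = h ^ 2) (hν1 : ν ≤ 1) (hB' : 3 / 4 ≤ B')
    (h0 : A + 2 * c * τ * B = ν * (1 + c * τ ^ 2))
    (h2 : ν * (q * τ - h ^ 2 / 2) ≤ q * B) (h3 : 0 ≤ q * (A' + 2 * c * τ * B'))
    (hτq : (τ + q) ^ 2 ≤ 1)
    (h4 : A + 4 * q * A' + 2 * c * (τ + q) * (B + 4 * q * B') ≤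
      (1 + 64 * h ^ 4) * (1 + c * (τ + q) ^ 2)) :
    ν ≤ 1 - 64 * h ^ 4 := by
  have e1 : A + 4 * q * A' + 2 * c * (τ + q) * (B + 4 * q * B') =
      (A + 2 * c * τ * B) + 4 * (q * (A' + 2 * c * τ * B')) + 2 * c * (q * B) +
        8 * c * q ^ 2 * B' := by ring
  have h5 : 2 * c * (ν * (q * τ - h ^ 2 / 2)) ≤ 2 * c * (q * B) :=
    mul_le_mul_of_nonneg_left h2 (by positivity)
  have h6 : 8 * c * q ^ 2 * (3 / 4) ≤ 8 * c * q ^ 2 * B' :=
    mul_le_mul_of_nonneg_left hB' (by positivity)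
  have h7 : c * h ^ 2 * ν ≤ c * h ^ 2 * 1 := mul_le_mul_of_nonneg_left hν1 (by positivity)
  have e2 : ν * (1 + c * (τ + q) ^ 2) = ν * (1 + c * τ ^ 2) + 2 * c * (ν * (q * τ)) +
      ν * c * q ^ 2 := by ring
  have h8 : 4 * c * h ^ 2 ≤ (1 + 64 * h ^ 4 - ν) * (1 + c * (τ + q) ^ 2) := by
    rw [e1, h0] at h4
    have e3 : (1 + 64 * h ^ 4 - ν) * (1 + c * (τ + q) ^ 2) =
      (1 + 64 * h ^ 4) * (1 + c * (τ + q) ^ 2) - ν * (1 + c * (τ + q) ^ 2) := by ring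
    rw [e3, e2]
    rw [hq] at h6 ⊢
    rw [hq] at h4
    have e4 : 2 * c * (ν * (q * τ - h ^ 2 / 2)) = 2 * c * (ν * (q * τ)) - c * h ^ 2 * ν := by ring
    rw [e4] at h5
    linarith
  have h9 : 0 ≤ 1 + 64 * h ^ 4 - ν := by
    have : 0 ≤ h ^ 4 := by positivity
    linarith
  have h10 : 1 + c * (τ + q) ^ 2 ≤ 2 := by
    have : c * (τ + q) ^ 2 ≤ c * 1 := mul_le_mul_of_nonneg_left hτq hc0.le
    linarith
  have h11 : 4 * c * h ^ 2 ≤ (1 + 64 * h ^ 4 - ν) * 2 :=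
    h8.trans (mul_le_mul_of_nonneg_left h10 h9)
  have e5 : 4 * c * h ^ 2 = 256 * h ^ 4 := by rw [hc]; ring
  rw [e5] at h11
  linarith

lemma curve (M : ℕ) (hM : 8 ≤ M) (h c : ℝ) (hh : h = 1 / (2 * (M : ℝ))) (hc : c = 64 * h ^ 2)
    (A B A' B' ν : ℝ) (hB : |B| ≤ 1 / 4) (hν : 15 / 16 ≤ ν) (hν1 : ν ≤ 1) (hB' : 3 / 4 ≤ B')
    (i₀ : ℤ) (hi₀ : |i₀| ≤ (M : ℤ))
    (h0 : A + 2 * c * (i₀ * h) * B = ν * (1 + c * (i₀ * h) ^ 2))
    (hmax : ∀ i : ℤ, |i| ≤ (M : ℤ) → A + 2 * c * (i * h) * B ≤ ν * (1 + c * (i * h) ^ 2))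
    (hs : ∀ s : ℝ, |s| = 4 * h → ∀ i : ℤ, |i| ≤ (M : ℤ) →
      A + s * A' + 2 * c * (i * h) * (B + s * B') ≤ (1 + s ^ 4 / 4) * (1 + c * (i * h) ^ 2)) :
    ν ≤ 1 - 64 * h ^ 4 := by
  have hM' : (8 : ℝ) ≤ M := by exact_mod_cast hM
  have hh0 : 0 < h := by rw [hh]; positivity
  have hh1 : h ≤ 1 / 16 := by
    rw [hh]
    apply one_div_le_one_div_of_le (by norm_num)
    linarith
  have hMh : (M : ℝ) * h = 1 / 2 := by
    rw [hh]; field_simp
  have hc0 : 0 < c := by rw [hc]; positivity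
  have hc1 : c ≤ 1 / 4 := by
    rw [hc]; nlinarith
  have hch : 0 < 2 * c * h := by positivity
  set τ : ℝ := i₀ * h with hτ
  obtain ⟨hB1, hB2⟩ := abs_le.mp hB
  obtain ⟨hi1, hi2⟩ := abs_le.mp hi₀
  -- bounds on τ
  have hτ1 : -(1 / 2) ≤ τ := by
    have : -(M : ℝ) ≤ i₀ := by exact_mod_cast hi1
    rw [hτ]; nlinarith
  have hτ2 : τ ≤ 1 / 2 := by
    have : (i₀ : ℝ) ≤ M := by exact_mod_cast hi2
    rw [hτ]; nlinarith
  -- upper neighbour
  have ha : i₀ + 1 ≤ (M : ℤ) → B ≤ ν * (τ + h / 2) := by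
    intro hi
    have h1 := hmax (i₀ + 1) (abs_le.mpr ⟨by linarith, hi⟩)
    push_cast at h1
    have e : ((i₀ : ℝ) + 1) * h = τ + h := by rw [hτ]; ring
    rw [e] at h1
    have h2 : 2 * c * h * B ≤ 2 * c * h * (ν * (τ + h / 2)) := by nlinarith
    exact le_of_mul_le_mul_left h2 hch
  have hb : -(M : ℤ) ≤ i₀ - 1 → ν * (τ - h / 2) ≤ B := by
    intro hi
    have h1 := hmax (i₀ - 1) (abs_le.mpr ⟨hi, by linarith⟩)
    push_cast at h1
    have e : ((i₀ : ℝ) - 1) * h = τ - h := by rw [hτ]; ring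
    rw [e] at h1
    have h2 : 2 * c * h * (ν * (τ - h / 2)) ≤ 2 * c * h * B := by nlinarith
    exact le_of_mul_le_mul_left h2 hch
  have hne1 : i₀ + 1 ≤ (M : ℤ) := by
    by_contra hcon
    have hiM : i₀ = (M : ℤ) := by linarith
    have hτ' : τ = 1 / 2 := by rw [hτ, hiM]; exact_mod_cast hMh
    have := hb (by rw [hiM]; have : (8 : ℤ) ≤ M := by exact_mod_cast hM
                   linarith)
    rw [hτ'] at this
    nlinarith
  have hne2 : -(M : ℤ) ≤ i₀ - 1 := by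
    by_contra hcon
    have hiM : i₀ = -(M : ℤ) := by linarith
    have hτ' : τ = -(1 / 2) := by
      rw [hτ, hiM]; push_cast; linarith
    have := ha hne1
    rw [hτ'] at this
    nlinarith
  have ha' := ha hne1
  have hb' := hb hne2
  have hh2 : 0 ≤ h ^ 2 / 2 := by positivity
  rcases le_total 0 (A' + 2 * c * τ * B') with hK | hK
  · have h1 := hs (4 * h) (abs_of_pos (by positivity)) (i₀ + 1)
      (abs_le.mpr ⟨by linarith, hne1⟩)
    push_cast at h1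
    have e : ((i₀ : ℝ) + 1) * h = τ + h := by rw [hτ]; ring
    rw [e] at h1
    have h3 : ((i₀ : ℝ) + 1) ≤ M := by exact_mod_cast hne1
    refine curve_step c h ν τ h A B A' B' hc0 hc1 hc rfl hν1 hB' h0 ?_ ?_ ?_ ?_
    · have := mul_le_mul_of_nonneg_left hb' hh0.le
      calc ν * (h * τ - h ^ 2 / 2) = h * (ν * (τ - h / 2)) := by ring
        _ ≤ h * B := this
    · exact mul_nonneg hh0.le hK
    · have h5 : τ + h ≤ 1 / 2 := by
        rw [← e, ← hMh]; exact mul_le_mul_of_nonneg_right h3 hh0.le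
      exact (sq_le_one_iff_abs_le_one _).mpr (abs_le.mpr ⟨by linarith, by linarith⟩)
    · calc _ = _ := by ring
        _ ≤ _ := h1
        _ = _ := by ring
  · have h1 := hs (-(4 * h)) (by rw [abs_neg]; exact abs_of_pos (by positivity)) (i₀ - 1)
      (abs_le.mpr ⟨hne2, by linarith⟩)
    push_cast at h1
    have e : ((i₀ : ℝ) - 1) * h = τ - h := by rw [hτ]; ring
    rw [e] at h1
    have h3 : -(M : ℝ) ≤ ((i₀ : ℝ) - 1) := by exact_mod_cast hne2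
    refine curve_step c h ν τ (-h) A B A' B' hc0 hc1 hc (by ring) hν1 hB' h0 ?_ ?_ ?_ ?_
    · have := mul_le_mul_of_nonneg_left ha' hh0.le
      calc ν * (-h * τ - h ^ 2 / 2) = -(h * (ν * (τ + h / 2))) := by ring
        _ ≤ -(h * B) := by linarith
        _ = -h * B := by ring
    · exact mul_nonneg_of_nonpos_of_nonpos (by linarith) hK
    · have h5 : -(1 / 2) ≤ τ - h := by
        rw [← e, ← hMh]
        calc -(M * h) = -(M : ℝ) * h := by ring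
          _ ≤ _ := mul_le_mul_of_nonneg_right h3 hh0.le
      exact (sq_le_one_iff_abs_le_one _).mpr (abs_le.mpr ⟨by linarith, by linarith⟩)
    · calc _ = _ := by ring
        _ ≤ _ := h1
        _ = _ := by ring

end Pool.Agent.Lib.MP_a54cc7_an
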