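import Mathlib

set_option autoImplicit false

namespace Pool.Agent.Lib.MP_a54cc7_an

open scoped ENNReal

instance factOneLeFour : Fact ((1 : ℝ≥0∞) ≤ 4) := ⟨by norm_num⟩

/-- The pair `(X, Y)` has the pointwise Bishop-Phelps-Bollobas property. -/
def PointwiseBPB (𝕜 X Y : Type*) [RCLike 𝕜] [NormedAddCommGroup X] [NormedSpace 𝕜 X]
    [NormedAddCommGroup Y] [NormedSpace 𝕜 Y] : Prop :=
  ∀ ε : ℝ, 0 < ε → ∃ η : ℝ, 0 < η ∧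
    ∀ (T : X →L[𝕜] Y) (x₀ : X), ‖T‖ = 1 → ‖x₀‖ = 1 → 1 - η < ‖T x₀‖ →
      ∃ S : X →L[𝕜] Y, ‖S‖ = 1 ∧ ‖S x₀‖ = 1 ∧ ‖S - T‖ < ε

/-- The compact-operator version: both `T` and `S` are required to be compact. -/
def PointwiseBPBCompact (𝕜 X Y : Type*) [RCLike 𝕜] [NormedAddCommGroup X] [NormedSpace 𝕜 X]
    [NormedAddCommGroup Y] [NormedSpace 𝕜 Y] : Prop :=
  ∀ ε : ℝ, 0 < ε → ∃ η : ℝ, 0 < η ∧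
    ∀ (T : X →L[𝕜] Y) (x₀ : X), IsCompactOperator T → ‖T‖ = 1 → ‖x₀‖ = 1 → 1 - η < ‖T x₀‖ →
      ∃ S : X →L[𝕜] Y, IsCompactOperator S ∧ ‖S‖ = 1 ∧ ‖S x₀‖ = 1 ∧ ‖S - T‖ < ε

/-- Uniform smoothness: the modulus of smoothness is `o(t)`. -/
def UniformlySmooth (X : Type*) [NormedAddCommGroup X] : Prop :=
  ∀ ε : ℝ, 0 < ε → ∃ t : ℝ, 0 < t ∧
    ∀ x y : X, ‖x‖ = 1 → ‖y‖ ≤ t → ‖x + y‖ + ‖x - y‖ ≤ 2 + ε * ‖y‖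

end Pool.Agent.Lib.MP_a54cc7_an
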