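import Pool.Agent.Lib.MP_a54cc7_an.Compact

set_option autoImplicit false

namespace Pool.Agent.Lib.MP_a54cc7_an

open scoped ENNReal
open Filter Topology

noncomputable section

variable {𝕜 : Type*} [RCLike 𝕜]

lemma peak (k : ℕ) (i : ℤ) (hi : |i| ≤ ((k + 8 : ℕ) : ℤ)) :
    ca k (some i) * (1 - cc k * (i * hh k) ^ 2) + cb k (some i) * (i * hh k) = 1 ∧
    ∀ j, j ≠ some i → |ca k j * (1 - cc k * (i * hh k) ^ 2) + cb k j * (i * hh k)| ≤
      1 - cc k * hh k ^ 2 / 2 := by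
  have hc0 := cc_pos k
  have hc1 := cc_le k
  have hh0 := hh_pos k
  have hh1 := hh_le k
  have hτ := tau_le k i hi
  set τ : ℝ := i * hh k with hτd
  obtain ⟨hτ1, hτ2⟩ := abs_le.mp hτ
  have hτsq : τ ^ 2 ≤ 1 / 4 := by nlinarith
  have hsmall : cc k * hh k ^ 2 / 2 ≤ 1 / 2 := by
    have : hh k ^ 2 ≤ 1 := by nlinarith
    have : cc k * hh k ^ 2 ≤ 1 / 4 * 1 := by gcongr
    linarith
  refine ⟨?_, ?_⟩
  · simp only [ca, cb, if_pos hi]
    have hd := den_pos k i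
    rw [div_mul_eq_mul_div, div_mul_eq_mul_div, ← add_div, div_eq_one_iff_eq hd.ne']
    unfold den
    rw [← hτd]; ring
  · intro j hj
    cases j with
    | none =>
      simp only [ca, cb, zero_mul, zero_add, one_mul]
      linarith
    | some i' =>
      have hne : i' ≠ i := fun h => hj (by rw [h])
      by_cases hi' : |i'| ≤ ((k + 8 : ℕ) : ℤ)
      · simp only [ca, cb, if_pos hi']
        have hτ' := tau_le k i' hi'
        set τ' : ℝ := i' * hh k with hτ'd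
        obtain ⟨hτ1', hτ2'⟩ := abs_le.mp hτ'
        have hτsq' : τ' ^ 2 ≤ 1 / 4 := by nlinarith
        have hd := den_pos k i'
        have hdv : den k i' = 1 + cc k * τ' ^ 2 := rfl
        have hd2 : den k i' ≤ 2 := by rw [hdv]; nlinarith
        rw [div_mul_eq_mul_div, div_mul_eq_mul_div, ← add_div, abs_div, abs_of_pos hd,
          div_le_iff₀ hd]
        have hdiff : hh k ^ 2 ≤ (τ' - τ) ^ 2 := by
          have e : τ' - τ = ((i' - i : ℤ) : ℝ) * hh k := by rw [hτd, hτ'd]; push_cast; ring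
          rw [e, mul_pow]
          have h1 : (1 : ℝ) ≤ ((i' - i : ℤ) : ℝ) ^ 2 := by
            have h2 : (1 : ℤ) ≤ (i' - i) ^ 2 := by
              have : i' - i ≠ 0 := sub_ne_zero.mpr hne
              have := sq_pos_of_ne_zero this
              linarith
            exact_mod_cast h2
          nlinarith [sq_nonneg (hh k)]
        have hprod : |τ' * τ| ≤ 1 / 4 := by
          rw [abs_mul]
          have := mul_le_mul hτ' hτ (abs_nonneg _) (by norm_num)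
          linarith
        obtain ⟨hp1, hp2⟩ := abs_le.mp hprod
        have hnn : 0 ≤ 1 * (1 - cc k * τ ^ 2) + 2 * cc k * τ' * τ := by nlinarith
        rw [abs_of_nonneg hnn]
        have e1 : 1 * (1 - cc k * τ ^ 2) + 2 * cc k * τ' * τ =
            den k i' - cc k * (τ' - τ) ^ 2 := by rw [hdv]; ring
        rw [e1]
        have h3 : cc k * hh k ^ 2 ≤ cc k * (τ' - τ) ^ 2 := by gcongr
        have h4 : cc k * hh k ^ 2 / 2 * den k i' ≤ cc k * hh k ^ 2 := by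
          have : 0 ≤ cc k * hh k ^ 2 := by positivity
          nlinarith
        linarith
      · simp only [ca, cb, if_neg hi', zero_mul, add_zero, abs_zero]
        linarith

variable {X : Type*} [NormedAddCommGroup X] [NormedSpace 𝕜 X]

lemma finish (T : X →L[𝕜] YT 𝕜) (hT : IsCompactOperator T) (hT1 : ‖T‖ ≤ 1) (k n : ℕ)
    (w : X →L[𝕜] 𝕜) (y : YT 𝕜) (hy : ‖y‖ ≤ 1) (κ δ₁ δ₂ : ℝ) (hκ : 0 ≤ κ) (x₀ : X)
    (hx₀ : ‖x₀‖ = 1) (hR : ∀ x, ‖((pr k n).comp T + w.smulRight y) x‖ ≤ (1 + κ) * ‖x‖)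
    (p : Idx) (hp : ‖cd (((pr k n).comp T + w.smulRight y) x₀) p‖ = 1 + κ)
    (h1 : ‖(pr k n).comp T - T‖ ≤ δ₁) (h2 : ‖w‖ ≤ δ₂) :
    ∃ S : X →L[𝕜] YT 𝕜, IsCompactOperator S ∧ ‖S‖ = 1 ∧ ‖S x₀‖ = 1 ∧ ‖S - T‖ ≤ δ₁ + δ₂ + κ := by
  set R : X →L[𝕜] YT 𝕜 := (pr k n).comp T + w.smulRight y with hRd
  have hκ1 : 0 < 1 + κ := by linarith
  have hRc : IsCompactOperator R := by
    have ha : IsCompactOperator ((pr k n).comp T) := hT.clm_comp (pr k n)
    exact ha.add (compact_smulRight w y)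
  have hRn : ‖R‖ ≤ 1 + κ := ContinuousLinearMap.opNorm_le_bound _ hκ1.le hR
  set l : 𝕜 := (((1 + κ)⁻¹ : ℝ) : 𝕜) with hl
  have hln : ‖l‖ = (1 + κ)⁻¹ := by
    rw [hl, RCLike.norm_ofReal, abs_of_pos (inv_pos.mpr hκ1)]
  have hSn : ‖l • R‖ ≤ 1 := by
    rw [norm_smul, hln, inv_mul_le_iff₀ hκ1, mul_one]; exact hRn
  have hSx : 1 ≤ ‖(l • R) x₀‖ := by
    have e : (l • R) x₀ = l • R x₀ := rfl
    rw [e, norm_smul, hln]
    have h3 : 1 + κ ≤ ‖R x₀‖ := by rw [← hp]; exact norm_cd _ _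
    calc (1 : ℝ) = (1 + κ)⁻¹ * (1 + κ) := (inv_mul_cancel₀ hκ1.ne').symm
      _ ≤ _ := by gcongr
  have hSx2 : ‖(l • R) x₀‖ ≤ ‖l • R‖ := by
    have := (l • R).le_opNorm x₀
    rwa [hx₀, mul_one] at this
  refine ⟨l • R, hRc.smul l, le_antisymm hSn (hSx.trans hSx2),
    le_antisymm (hSx2.trans hSn) hSx, ?_⟩
  have e : l • R - T = l • ((R - T) - (κ : 𝕜) • T) := by
    have e2 : T = l • (((1 + κ : ℝ) : 𝕜) • T) := by
      rw [smul_smul, hl, ← RCLike.ofReal_mul, inv_mul_cancel₀ hκ1.ne', RCLike.ofReal_one, one_smul]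
    have e3 : (((1 + κ : ℝ) : 𝕜) • T) = T + (κ : 𝕜) • T := by
      refine ContinuousLinearMap.ext fun x => ?_
      show ((1 + κ : ℝ) : 𝕜) • T x = T x + (κ : 𝕜) • T x
      push_cast; rw [add_smul, one_smul]
    calc l • R - T = l • R - l • (((1 + κ : ℝ) : 𝕜) • T) := by rw [← e2]
      _ = l • (R - (T + (κ : 𝕜) • T)) := by rw [← e3, smul_sub]
      _ = _ := by congr 1; abel
  rw [e, norm_smul, hln]
  have hle1 : (1 + κ)⁻¹ ≤ 1 := inv_le_one_of_one_le₀ (by linarith)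
  have hRT : ‖R - T‖ ≤ δ₁ + δ₂ := by
    have e4 : R - T = ((pr k n).comp T - T) + w.smulRight y := by rw [hRd]; abel
    rw [e4]
    refine (norm_add_le _ _).trans (add_le_add h1 ?_)
    rw [ContinuousLinearMap.norm_smulRight_apply]
    calc ‖w‖ * ‖y‖ ≤ ‖w‖ * 1 := by gcongr
      _ ≤ δ₂ := by rw [mul_one]; exact h2
  calc (1 + κ)⁻¹ * ‖R - T - (κ : 𝕜) • T‖ ≤ 1 * ‖R - T - (κ : 𝕜) • T‖ := by gcongr
    _ ≤ ‖R - T‖ + ‖(κ : 𝕜) • T‖ := by rw [one_mul]; exact norm_sub_le _ _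
    _ ≤ (δ₁ + δ₂) + κ := by
      refine add_le_add hRT ?_
      rw [norm_smul, RCLike.norm_ofReal, abs_of_nonneg hκ]
      calc κ * ‖T‖ ≤ κ * 1 := by gcongr
        _ = κ := mul_one _
    _ = δ₁ + δ₂ + κ := rfl

lemma cc_small (δ : ℝ) (hδ : 0 < δ) : ∃ K : ℕ, ∀ k, K ≤ k → cc k ≤ δ := by
  obtain ⟨K, hK⟩ := exists_nat_ge (16 / δ)
  refine ⟨K, fun k hk => ?_⟩
  have h1 : (16 / δ) ≤ k := hK.trans (by exact_mod_cast hk)
  have h2 : cc k = 16 / ((k : ℝ) + 8) ^ 2 := by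
    unfold cc hh
    push_cast
    field_simp
    norm_num
  rw [h2, div_le_iff₀ (by positivity)]
  rw [div_le_iff₀ hδ] at h1
  have hk0 : (0 : ℝ) ≤ k := Nat.cast_nonneg k
  nlinarith

lemma finite_min (δ : ℕ → ℝ) (hδ : ∀ k, 0 < δ k) (K : ℕ) : ∃ d, 0 < d ∧ ∀ k, k < K → d ≤ δ k := by
  induction K with
  | zero => exact ⟨1, one_pos, fun k hk => absurd hk (by omega)⟩
  | succ K ih =>
    obtain ⟨d, hd, h⟩ := ih
    refine ⟨min d (δ K), lt_min hd (hδ K), fun k hk => ?_⟩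
    rcases Nat.lt_succ_iff_lt_or_eq.mp hk with h1 | h1
    · exact (min_le_left _ _).trans (h k h1)
    · rw [h1]; exact min_le_right _ _

theorem compact_version (hX : UniformlySmooth X) : PointwiseBPBCompact 𝕜 X (YT 𝕜) := by
  intro ε hε
  -- moduli
  obtain ⟨δA, hδA, hA⟩ := smooth_functional (𝕜 := 𝕜) hX (ε / 4) (by positivity)
  obtain ⟨δN, hδN, hN⟩ := smooth_functional (𝕜 := 𝕜) hX ((1 - 1 / 4) * (ε / 8)) (by positivity)
  have hgap : ∀ k, 0 < cc k * hh k ^ 2 / 2 := fun k => by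
    have := cc_pos k
    have := hh_pos k
    positivity
  have hk : ∀ k : ℕ, ∃ δ : ℝ, 0 < δ ∧ ∀ (x₀ : X) (f g : X →L[𝕜] 𝕜), ‖x₀‖ = 1 → ‖f‖ ≤ 1 →
      ‖g‖ ≤ 1 → g x₀ = 1 → 1 - δ < ‖f x₀‖ → ∃ l : 𝕜, ‖l‖ = 1 ∧
        ‖f - l • g‖ < (cc k * hh k ^ 2 / 2) * (ε / 8) := fun k =>
    smooth_functional (𝕜 := 𝕜) hX _ (mul_pos (hgap k) (by positivity))
  choose δk hδk hB using hk
  obtain ⟨K, hK⟩ := cc_small (δA / 2) (by positivity)
  obtain ⟨d, hd, hdk⟩ := finite_min δk hδk K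
  refine ⟨min (min (δA / 2) δN) (min d (1 / 2)), by positivity, ?_⟩
  intro T x₀ hT hT1 hx₀ hTx
  have hη1 : min (min (δA / 2) δN) (min d (1 / 2)) ≤ δA / 2 :=
    (min_le_left _ _).trans (min_le_left _ _)
  have hη2 : min (min (δA / 2) δN) (min d (1 / 2)) ≤ δN :=
    (min_le_left _ _).trans (min_le_right _ _)
  have hη3 : min (min (δA / 2) δN) (min d (1 / 2)) ≤ d :=
    (min_le_right _ _).trans (min_le_left _ _)
  have hη4 : min (min (δA / 2) δN) (min d (1 / 2)) ≤ 1 / 2 :=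
    (min_le_right _ _).trans (min_le_right _ _)
  set η := min (min (δA / 2) δN) (min d (1 / 2)) with hη
  -- a coordinate
  obtain ⟨⟨k, m₀, j₀⟩, hcoord⟩ : ∃ p, 1 - η < ‖cd (T x₀) p‖ := by
    by_contra hcon
    push Not at hcon
    exact absurd (yt_norm_le _ (by linarith) hcon) (not_le.mpr hTx)
  obtain ⟨N, hNn⟩ := compact_approx T hT k (ε / 8) (by positivity)
  set n := max N m₀ with hn
  have hm₀ : m₀ < 2 ^ n := lt_of_lt_of_le (Nat.lt_two_pow_self) (Nat.pow_le_pow_right (by norm_num) (le_max_right _ _))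
  have hpr := hNn n (le_max_left _ _)
  -- norming functional
  have hx₀ne : ‖x₀‖ ≠ 0 := by rw [hx₀]; exact one_ne_zero
  obtain ⟨g, hg1, hgx⟩ := exists_dual_vector 𝕜 x₀ hx₀ne
  rw [hx₀] at hgx
  have hgx1 : g x₀ = 1 := by rw [hgx]; simp
  have useB : ∀ (za zb ρ : ℝ), ca k j₀ * za + cb k j₀ * zb = 1 →
      (∀ j, j ≠ j₀ → |ca k j * za + cb k j * zb| ≤ ρ) → 0 ≤ ρ → ρ ≤ 1 →
      (∃ l : 𝕜, ‖l‖ = 1 ∧ ‖co (k, m₀, j₀) T - l • g‖ < (1 - ρ) * (ε / 8)) →
      ∃ S : X →L[𝕜] YT 𝕜, IsCompactOperator S ∧ ‖S‖ = 1 ∧ ‖S x₀‖ = 1 ∧ ‖S - T‖ < ε := by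
    rintro za zb ρ hz hzj hρ0 hρ1 ⟨l, hl1, hl2⟩
    have hx'1 : ‖l • g‖ ≤ 1 := by rw [norm_smul, hl1, hg1, one_mul]
    have hdist : ‖l • g - co (k, m₀, j₀) T‖ ≤ (1 - ρ) * (ε / 8) := by
      rw [norm_sub_rev]; exact hl2.le
    have hκρ : ρ * (‖l • g - co (k, m₀, j₀) T‖ + ε / 8) ≤ ε / 8 := by
      calc _ ≤ ρ * ((1 - ρ) * (ε / 8) + ε / 8) := by gcongr
        _ = (1 - (1 - ρ) ^ 2) * (ε / 8) := by ring
        _ ≤ 1 * (ε / 8) := by
          gcongr
          nlinarith [sq_nonneg (1 - ρ)]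
        _ = _ := one_mul _
    obtain ⟨y, hy1, hy2, p, hy3⟩ := fixB T hT1.le k n m₀ hm₀ j₀ za zb ρ (ε / 8) hz hzj hρ0 hρ1
      (by positivity) (l • g) hx'1 hκρ
    have hval : ‖cd (((pr k n).comp T + (((1 + ε / 8 : ℝ) : 𝕜) • (l • g) -
        co (k, m₀, j₀) T).smulRight y) x₀) p‖ = 1 + ε / 8 := by
      rw [hy3]
      have e : (l • g) x₀ = l * g x₀ := rfl
      rw [e, hgx1, mul_one, norm_mul, hl1, mul_one, RCLike.norm_ofReal, abs_of_pos (by positivity)]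
    have hw : ‖((1 + ε / 8 : ℝ) : 𝕜) • (l • g) - co (k, m₀, j₀) T‖ ≤ ε / 8 + ε / 8 := by
      have e : ((1 + ε / 8 : ℝ) : 𝕜) • (l • g) - co (k, m₀, j₀) T =
          (l • g - co (k, m₀, j₀) T) + ((ε / 8 : ℝ) : 𝕜) • (l • g) := by
        refine ContinuousLinearMap.ext fun x => ?_
        show ((1 + ε / 8 : ℝ) : 𝕜) * (l • g) x - co (k, m₀, j₀) T x =
          ((l • g) x - co (k, m₀, j₀) T x) + ((ε / 8 : ℝ) : 𝕜) * (l • g) x
        push_cast; ring
      rw [e]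
      refine (norm_add_le _ _).trans (add_le_add ?_ ?_)
      · refine hdist.trans ?_
        calc (1 - ρ) * (ε / 8) ≤ 1 * (ε / 8) := by gcongr; linarith
          _ = _ := one_mul _
      · rw [norm_smul, RCLike.norm_ofReal, abs_of_pos (by positivity)]
        calc ε / 8 * ‖l • g‖ ≤ ε / 8 * 1 := by gcongr
          _ = _ := mul_one _
    obtain ⟨S, hS1, hS2, hS3, hS4⟩ := finish T hT hT1.le k n _ y hy1 (ε / 8) (ε / 8)
      (ε / 8 + ε / 8) (by positivity) x₀ hx₀ hy2 p hval hpr hw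
    exact ⟨S, hS1, hS2, hS3, lt_of_le_of_lt hS4 (by linarith)⟩
  cases j₀ with
  | none =>
    refine useB 0 1 (1 / 4) (by simp [ca, cb]) ?_ (by norm_num) (by norm_num) ?_
    · intro j hj
      cases j with
      | none => exact absurd rfl hj
      | some i =>
        rw [mul_zero, zero_add, mul_one]
        exact (abs_cb_some k i).trans (cc_le k)
    · exact hN x₀ _ g hx₀ ((co_norm _ _).trans hT1.le) hg1.le hgx1
        (by rw [co_apply]; linarith)
  | some i =>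
    have hi : |i| ≤ ((k + 8 : ℕ) : ℤ) := by
      by_contra hi
      rw [cd_eq] at hcoord
      simp only [ca, cb, if_neg hi] at hcoord
      simp at hcoord
      linarith
    by_cases hkK : k < K
    · obtain ⟨hz, hzj⟩ := peak k i hi
      have hgk := hgap k
      have hsm : cc k * hh k ^ 2 / 2 ≤ 1 := by
        have h1 := cc_le k
        have h2 := hh_le k
        have h3 := hh_pos k
        have : hh k ^ 2 ≤ 1 := by nlinarith
        have := cc_pos k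
        nlinarith
      refine useB _ _ _ hz hzj (by linarith) (by linarith) ?_
      have e : 1 - (1 - cc k * hh k ^ 2 / 2) = cc k * hh k ^ 2 / 2 := by ring
      rw [e]
      exact hB k x₀ _ g hx₀ ((co_norm _ _).trans hT1.le) hg1.le hgx1
        (by rw [co_apply]; linarith [hdk k hkK])
    · have hck := hK k (not_lt.mp hkK)
      have ha : 1 - δA < ‖co (k, m₀, some 0) T x₀‖ := by
        rw [co_apply]
        rw [cd_eq] at hcoord
        have h1 : ‖(cb k (some i) : 𝕜) * cd (T x₀) (k, m₀, none)‖ ≤ cc k := by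
          rw [norm_mul, RCLike.norm_ofReal]
          have h2 : ‖cd (T x₀) (k, m₀, none)‖ ≤ 1 := by
            refine (norm_cd _ _).trans ?_
            have := T.le_opNorm x₀
            rwa [hT1, hx₀, mul_one] at this
          calc _ ≤ cc k * 1 := mul_le_mul (abs_cb_some k i) h2 (norm_nonneg _) (cc_pos k).le
            _ = _ := mul_one _
        have h3 : ‖(ca k (some i) : 𝕜) * cd (T x₀) (k, m₀, some 0)‖ ≤
            ‖cd (T x₀) (k, m₀, some 0)‖ := by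
          rw [norm_mul, RCLike.norm_ofReal, abs_of_nonneg (ca_nonneg _ _)]
          calc _ ≤ 1 * ‖cd (T x₀) (k, m₀, some 0)‖ := by gcongr; exact ca_le_one _ _
            _ = _ := one_mul _
        have h4 := norm_add_le ((ca k (some i) : 𝕜) * cd (T x₀) (k, m₀, some 0))
          ((cb k (some i) : 𝕜) * cd (T x₀) (k, m₀, none))
        linarith
      obtain ⟨l, hl1, hl2⟩ := hA x₀ (co (k, m₀, some 0) T) g hx₀ ((co_norm _ _).trans hT1.le)
        hg1.le hgx1 ha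
      have hx'1 : ‖l • g‖ ≤ 1 := by rw [norm_smul, hl1, hg1, one_mul]
      obtain ⟨y, hy1, hy2, p, hy3⟩ := fixA T hT1.le k n m₀ hm₀ (l • g) hx'1
      have hval : ‖cd (((pr k n).comp T + (l • g - co (k, m₀, some 0) T).smulRight y) x₀) p‖
          = 1 + 0 := by
        rw [hy3]
        have e : (l • g) x₀ = l * g x₀ := rfl
        rw [e, hgx1, mul_one, hl1, add_zero]
      obtain ⟨S, hS1, hS2, hS3, hS4⟩ := finish T hT hT1.le k n _ y hy1 0 (ε / 8)
        (ε / 4) le_rfl x₀ hx₀ (by simpa using hy2) p hval hpr (by rw [norm_sub_rev]; exact hl2.le)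
      exact ⟨S, hS1, hS2, hS3, lt_of_le_of_lt hS4 (by linarith)⟩

end

end Pool.Agent.Lib.MP_a54cc7_an
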