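import Pool.Agent.Lib.MP_a54cc7_an.MainCompact
import Pool.Agent.Lib.MP_a54cc7_an.Curve

set_option autoImplicit false

namespace Pool.Agent.Lib.MP_a54cc7_an

open scoped ENNReal
open Filter Topology

noncomputable section

variable {𝕜 : Type*} [RCLike 𝕜]

abbrev L4 (𝕜 : Type*) [RCLike 𝕜] := lp (fun _ : ℕ => 𝕜) 4

lemma bad_scalar (c τ s t R : ℝ) (hc0 : 0 < c) (hc1 : c ≤ 1 / 4) (hs : 0 ≤ s) (ht : 0 ≤ t)
    (hR : 0 ≤ R) (h4 : s ^ 4 + t ^ 4 ≤ R ^ 4) :
    (1 - 2 * c ^ 2) * s + 2 * c * |τ| * t ≤ (1 + c * τ ^ 2) * R := by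
  rcases hR.eq_or_lt with h0 | hRpos
  · rw [← h0] at h4 ⊢
    have hs4 : s ^ 4 = 0 := by nlinarith [pow_nonneg hs 4, pow_nonneg ht 4]
    have ht4 : t ^ 4 = 0 := by nlinarith [pow_nonneg hs 4, pow_nonneg ht 4]
    have hs0 : s = 0 := by simpa using hs4
    have ht0 : t = 0 := by simpa using ht4
    rw [hs0, ht0]; simp
  · -- step 1
    have h1 : 2 * c * |τ| * t ≤ c * τ ^ 2 * R + c * t ^ 2 / R := by
      have h2 : 0 ≤ c * (|τ| * R - t) ^ 2 / R := by positivity
      have h3 : c * (|τ| * R - t) ^ 2 / R = c * |τ| ^ 2 * R - 2 * c * |τ| * t + c * t ^ 2 / R := by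
        field_simp
        ring
      rw [h3, sq_abs] at h2
      linarith
    have h5 : (1 - 2 * c ^ 2) * s + c * t ^ 2 / R ≤ R := by
      have h6 : s * R ^ 3 ≤ (s ^ 4 + 3 * R ^ 4) / 4 := by
        nlinarith [mul_nonneg (sq_nonneg (s - R)) (sq_nonneg (s + R)), sq_nonneg (s - R),
          mul_nonneg (sq_nonneg (s - R)) (mul_nonneg hs hR),
          mul_nonneg (sq_nonneg (s - R)) (mul_nonneg hR hR),
          mul_nonneg (sq_nonneg (s - R)) (mul_nonneg hs hs)]
      have hc2 : c ^ 2 ≤ 1 / 16 := by nlinarith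
      have hcoef : 0 ≤ 1 - 2 * c ^ 2 := by linarith
      have h7 : (1 - 2 * c ^ 2) * (s * R ^ 3) ≤ (1 - 2 * c ^ 2) * ((4 * R ^ 4 - t ^ 4) / 4) := by
        apply mul_le_mul_of_nonneg_left _ hcoef
        linarith
      have h8 : c * t ^ 2 * R ^ 2 ≤ 2 * c ^ 2 * R ^ 4 + 7 / 32 * t ^ 4 := by
        nlinarith [sq_nonneg (c * R ^ 2 * 2 - t ^ 2 / 2), sq_nonneg (c * R ^ 2), sq_nonneg (t ^ 2),
          sq_nonneg (2 * (c * R ^ 2) - 1 / 2 * t ^ 2)]
      have h9 : (1 - 2 * c ^ 2) * (s * R ^ 3) + c * t ^ 2 * R ^ 2 ≤ R ^ 4 := by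
        have ht4 : 0 ≤ t ^ 4 := by positivity
        nlinarith
      have h10 : ((1 - 2 * c ^ 2) * s + c * t ^ 2 / R) * R ^ 3 ≤ R * R ^ 3 := by
        calc _ = (1 - 2 * c ^ 2) * (s * R ^ 3) + c * t ^ 2 * R ^ 2 := by field_simp
          _ ≤ R ^ 4 := h9
          _ = _ := by ring
      exact le_of_mul_le_mul_right h10 (by positivity)
    nlinarith

lemma l4_two (x : L4 𝕜) (i j : ℕ) (hij : i ≠ j) : ‖x i‖ ^ 4 + ‖x j‖ ^ 4 ≤ ‖x‖ ^ 4 := by
  have h := sum_le_hasSum {i, j} (fun _ _ => by positivity) (l4_norm_pow x)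
  rwa [Finset.sum_pair hij] at h

lemma badGood (k : ℕ) (x : L4 𝕜) :
    Good (fun _ => ((1 - 2 * cc k ^ 2 : ℝ) : 𝕜) * x 0) (fun m => x (m + 1)) := by
  have hc0 := cc_pos k
  have hc1 := cc_le k
  have hc2 : cc k ^ 2 ≤ 1 / 16 := by nlinarith
  refine ⟨⟨‖x‖, fun m => ⟨?_, lp.norm_apply_le_norm (by norm_num) x _⟩⟩, ?_⟩
  · rw [norm_mul, RCLike.norm_ofReal, abs_of_nonneg (by linarith)]
    calc _ ≤ 1 * ‖x‖ := mul_le_mul (by nlinarith) (lp.norm_apply_le_norm (by norm_num) x _)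
          (norm_nonneg _) zero_le_one
      _ = _ := one_mul _
  · intro ε hε
    have ht : Tendsto (fun i => ‖x i‖ ^ 4) atTop (𝓝 0) := (l4_norm_pow x).summable.tendsto_atTop_zero
    have hev := ht.eventually (gt_mem_nhds (pow_pos hε 4))
    obtain ⟨N, hN⟩ := eventually_atTop.mp hev
    refine ⟨N, fun n hn m => ⟨fun hm => ?_, by simpa using hε.le⟩⟩
    have h1 : n < 2 ^ n := Nat.lt_two_pow_self
    have h2 := hN (m + 1) (by omega)
    exact (lt_of_pow_lt_pow_left₀ 4 hε.le h2).le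

def badT (k : ℕ) : L4 𝕜 →L[𝕜] YT 𝕜 :=
  LinearMap.mkContinuous
    { toFun := fun x => pt 0 k _ _ (badGood k x)
      map_add' := by
        intro x y
        apply yt_ext
        · intro k' m
          rw [cd_add]
          by_cases hk : k' = k
          · subst hk
            rw [pt_a, pt_a, pt_a]
            show _ * (x 0 + y 0) = _
            ring
          · rw [pt_ne _ _ _ _ _ _ _ _ hk, pt_ne _ _ _ _ _ _ _ _ hk, pt_ne _ _ _ _ _ _ _ _ hk,
              cd_zero, add_zero]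
        · intro k' m
          rw [cd_add]
          by_cases hk : k' = k
          · subst hk
            rw [pt_b, pt_b, pt_b]
            rfl
          · rw [pt_ne _ _ _ _ _ _ _ _ hk, pt_ne _ _ _ _ _ _ _ _ hk, pt_ne _ _ _ _ _ _ _ _ hk,
              cd_zero, add_zero]
      map_smul' := by
        intro c x
        rw [RingHom.id_apply]
        apply yt_ext
        · intro k' m
          rw [cd_smul]
          by_cases hk : k' = k
          · subst hk
            rw [pt_a, pt_a]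
            show _ * (c * x 0) = _
            ring
          · rw [pt_ne _ _ _ _ _ _ _ _ hk, pt_ne _ _ _ _ _ _ _ _ hk, cd_zero, mul_zero]
        · intro k' m
          rw [cd_smul]
          by_cases hk : k' = k
          · subst hk
            rw [pt_b, pt_b]
            rfl
          · rw [pt_ne _ _ _ _ _ _ _ _ hk, pt_ne _ _ _ _ _ _ _ _ hk, cd_zero, mul_zero] } 1
    (by
      intro x
      rw [one_mul]
      refine yt_norm_le _ (norm_nonneg _) ?_
      rintro ⟨k', m, j⟩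
      show ‖cd (pt 0 k _ _ (badGood k x)) (k', m, j)‖ ≤ ‖x‖
      by_cases hk : k' = k
      · subst hk
        rw [pt_same]
        cases j with
        | none =>
          simp only [ca, cb, RCLike.ofReal_zero, zero_mul, zero_add, RCLike.ofReal_one, one_mul]
          exact lp.norm_apply_le_norm (by norm_num) x _
        | some i =>
          by_cases hi : |i| ≤ ((k' + 8 : ℕ) : ℤ)
          · simp only [ca, cb, if_pos hi]
            have hc0 := cc_pos k'
            have hc1 := cc_le k'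
            have hc2 : cc k' ^ 2 ≤ 1 / 16 := by nlinarith
            have hd := den_pos k' i
            have hb := bad_scalar (cc k') (i * hh k') ‖x 0‖ ‖x (m + 1)‖ ‖x‖ hc0 hc1
              (norm_nonneg _) (norm_nonneg _) (norm_nonneg _) (l4_two x 0 (m + 1) (by omega))
            refine (norm_add_le _ _).trans ?_
            rw [norm_mul, norm_mul, norm_mul, RCLike.norm_ofReal, RCLike.norm_ofReal,
              RCLike.norm_ofReal, abs_of_pos (one_div_pos.mpr hd), abs_div, abs_of_pos hd,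
              abs_of_nonneg (by linarith : 0 ≤ 1 - 2 * cc k' ^ 2), abs_mul,
              abs_of_pos (by positivity : 0 < 2 * cc k')]
            have e : 1 / den k' i * ((1 - 2 * cc k' ^ 2) * ‖x 0‖) +
                2 * cc k' * |(i : ℝ) * hh k'| / den k' i * ‖x (m + 1)‖ =
                ((1 - 2 * cc k' ^ 2) * ‖x 0‖ + 2 * cc k' * |(i : ℝ) * hh k'| * ‖x (m + 1)‖) /
                  den k' i := by
              field_simp
            rw [e, div_le_iff₀ hd]
            calc _ ≤ (1 + cc k' * (i * hh k') ^ 2) * ‖x‖ := hb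
              _ = ‖x‖ * den k' i := by unfold den; ring
          · simp only [ca, cb, if_neg hi]
            simp
      · rw [pt_ne _ _ _ _ _ _ _ _ hk, cd_zero, norm_zero]; exact norm_nonneg _)

lemma badT_same (k : ℕ) (x : L4 𝕜) (m : ℕ) (j : Option ℤ) : cd (badT k x) (k, m, j) =
    (ca k j : 𝕜) * (((1 - 2 * cc k ^ 2 : ℝ) : 𝕜) * x 0) + (cb k j : 𝕜) * x (m + 1) :=
  pt_same 0 k _ _ (badGood k x) m j

lemma badT_ne (k : ℕ) (x : L4 𝕜) (k' m : ℕ) (j : Option ℤ) (hk : k' ≠ k) :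
    cd (badT k x) (k', m, j) = 0 := pt_ne 0 k _ _ (badGood k x) k' m j hk

lemma badT_b (k : ℕ) (x : L4 𝕜) (m : ℕ) : cd (badT k x) (k, m, none) = x (m + 1) := by
  rw [badT_same]; simp [ca, cb]

abbrev ee (i : ℕ) : L4 𝕜 := lp.single 4 i (1 : 𝕜)

lemma ee_self (i : ℕ) : (ee i : L4 𝕜) i = 1 :=
  lp.single_apply_self (E := fun _ : ℕ => 𝕜) 4 i (1 : 𝕜)

lemma ee_ne (i j : ℕ) (h : j ≠ i) : (ee i : L4 𝕜) j = 0 :=
  lp.single_apply_ne (E := fun _ : ℕ => 𝕜) 4 i (1 : 𝕜) h

lemma ee_norm (i : ℕ) : ‖(ee i : L4 𝕜)‖ = 1 := by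
  rw [lp.norm_single (by norm_num)]; exact norm_one

lemma badT_norm (k : ℕ) : ‖(badT k : L4 𝕜 →L[𝕜] YT 𝕜)‖ = 1 := by
  apply le_antisymm
  · exact LinearMap.mkContinuous_norm_le _ zero_le_one _
  · have h1 := (badT k : L4 𝕜 →L[𝕜] YT 𝕜).le_opNorm (ee 1)
    rw [ee_norm, mul_one] at h1
    refine le_trans ?_ h1
    have h2 := norm_cd (badT k (ee 1 : L4 𝕜)) (k, 0, none)
    rw [badT_b] at h2
    have h3 : (ee 1 : L4 𝕜) (0 + 1) = 1 := ee_self 1
    rw [h3, norm_one] at h2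
    exact h2

lemma two_norm (m : ℕ) (c : 𝕜) : ‖(ee 0 + c • ee (m + 1) : L4 𝕜)‖ ≤ 1 + ‖c‖ ^ 4 / 4 := by
  set u : L4 𝕜 := ee 0 + c • ee (m + 1) with hu
  have h := (l4_norm_pow u).tsum_eq
  have hu0 : ∀ i, u i = (ee 0 : L4 𝕜) i + c * (ee (m + 1) : L4 𝕜) i := fun _ => rfl
  have hz : ∀ i ∉ ({0, m + 1} : Finset ℕ), ‖u i‖ ^ 4 = 0 := by
    intro i hi
    simp only [Finset.mem_insert, Finset.mem_singleton, not_or] at hi
    rw [hu0, ee_ne 0 i hi.1, ee_ne (m + 1) i hi.2]
    simp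
  rw [tsum_eq_sum hz, Finset.sum_pair (by omega)] at h
  have h1 : u 0 = 1 := by
    rw [hu0, ee_self, ee_ne (m + 1) 0 (by omega)]; simp
  have h2 : u (m + 1) = c := by
    rw [hu0, ee_self, ee_ne 0 (m + 1) (by omega)]; simp
  rw [h1, h2, norm_one] at h
  have h3 : ‖u‖ ^ 4 ≤ (1 + ‖c‖ ^ 4 / 4) ^ 4 := by
    rw [← h]
    have h4 : 0 ≤ ‖c‖ ^ 4 := by positivity
    nlinarith [pow_nonneg h4 2, pow_nonneg h4 3, pow_nonneg h4 4]
  exact le_of_pow_le_pow_left₀ (by norm_num) (by positivity) h3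

theorem not_pointwise : ¬ PointwiseBPB 𝕜 (L4 𝕜) (YT 𝕜) := by
  intro hP
  obtain ⟨η, hη, h⟩ := hP (1 / 4) (by norm_num)
  obtain ⟨k, hk⟩ := cc_small η hη
  have hck := hk k le_rfl
  have hc0 := cc_pos k
  have hc1 := cc_le k
  have hc2 : cc k ^ 2 ≤ 1 / 16 := by nlinarith
  have hh0 := hh_pos k
  have hh1 := hh_le k
  have hh4 : 64 * hh k ^ 4 ≤ 1 / 16 := by
    have : hh k ^ 4 ≤ (1 / 16) ^ 4 := by gcongr
    linarith
  have hx0 : (ee 0 : L4 𝕜) 0 = 1 := ee_self 0
  have hxm : ∀ m : ℕ, (ee 0 : L4 𝕜) (m + 1) = 0 := fun m => ee_ne 0 (m + 1) (by omega)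
  have hval : 1 - η < ‖badT k (ee 0 : L4 𝕜)‖ := by
    have h2 := norm_cd (badT k (ee 0 : L4 𝕜)) (k, 0, some 0)
    rw [badT_same, ca_zero, cb_zero, hx0] at h2
    simp only [RCLike.ofReal_one, one_mul, mul_one, RCLike.ofReal_zero, zero_mul, add_zero] at h2
    rw [RCLike.norm_ofReal, abs_of_nonneg (by linarith)] at h2
    have : 2 * cc k ^ 2 < η := by nlinarith
    linarith
  obtain ⟨S, hS1, hS2, hS3⟩ := h (badT k) (ee 0) (badT_norm k) (ee_norm 0) hval
  have hdiff : ∀ (x : L4 𝕜) (p : Idx), ‖x‖ = 1 → ‖cd (S x) p - cd (badT k x) p‖ ≤ 1 / 4 := by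
    intro x p hx
    have e : cd (S x) p - cd (badT k x) p = cd ((S - badT k : L4 𝕜 →L[𝕜] YT 𝕜) x) p := rfl
    rw [e]
    refine (norm_cd _ _).trans ?_
    have h1 := (S - badT k).le_opNorm x
    rw [hx, mul_one] at h1
    exact h1.trans hS3.le
  have hbound : ‖S (ee 0)‖ ≤ 1 - 64 * hh k ^ 4 := by
    refine yt_norm_le _ (by linarith) ?_
    rintro ⟨k', m, j⟩
    by_cases hkk : k' = k
    · subst hkk
      set a : 𝕜 := cd (S (ee 0)) (k', m, some 0) with ha
      set b : 𝕜 := cd (S (ee 0)) (k', m, none) with hb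
      have hbn : ‖b‖ ≤ 1 / 4 := by
        have h1 := hdiff (ee 0) (k', m, none) (ee_norm 0)
        rw [badT_b, hxm, sub_zero] at h1
        exact h1
      have hcoord : ∀ i : ℤ, cd (S (ee 0)) (k', m, some i) =
          (ca k' (some i) : 𝕜) * a + (cb k' (some i) : 𝕜) * b := fun i => cd_eq _ _ _ _
      by_contra hcon
      rw [not_le] at hcon
      cases j with
      | none =>
        have : ‖b‖ > 1 - 64 * hh k' ^ 4 := hcon
        linarith
      | some i =>
      have hi : |i| ≤ ((k' + 8 : ℕ) : ℤ) := by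
        by_contra hi
        rw [hcoord] at hcon
        simp only [ca, cb, if_neg hi] at hcon
        simp at hcon
        linarith
      obtain ⟨i₀, hi₀mem, hi₀max⟩ := Finset.exists_max_image
        (Finset.Icc (-((k' + 8 : ℕ) : ℤ)) ((k' + 8 : ℕ) : ℤ))
        (fun i => ‖cd (S (ee 0)) (k', m, some i)‖) ⟨i, Finset.mem_Icc.mpr (abs_le.mp hi)⟩
      have hi₀ : |i₀| ≤ ((k' + 8 : ℕ) : ℤ) := abs_le.mpr (Finset.mem_Icc.mp hi₀mem)
      set z : 𝕜 := cd (S (ee 0)) (k', m, some i₀) with hz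
      have hzmax : ∀ i : ℤ, |i| ≤ ((k' + 8 : ℕ) : ℤ) → ‖cd (S (ee 0)) (k', m, some i)‖ ≤ ‖z‖ :=
        fun i hi => hi₀max i (Finset.mem_Icc.mpr (abs_le.mp hi))
      have hzbig : 1 - 64 * hh k' ^ 4 < ‖z‖ := lt_of_lt_of_le hcon (hzmax i hi)
      have hz1 : ‖z‖ ≤ 1 := by rw [← hS2]; exact norm_cd _ _
      have hzpos : 0 < ‖z‖ := by linarith
      have hzc : ((‖z‖ : ℝ) : 𝕜) ≠ 0 := by
        rw [Ne, RCLike.ofReal_eq_zero]; exact hzpos.ne'
      set ω : 𝕜 := (starRingEnd 𝕜) z / ((‖z‖ : ℝ) : 𝕜) with hω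
      have hωn : ‖ω‖ = 1 := by
        rw [hω, norm_div, RCLike.norm_conj, RCLike.norm_ofReal, abs_of_pos hzpos,
          div_self hzpos.ne']
      have hωz : ω * z = ((‖z‖ : ℝ) : 𝕜) := by
        rw [hω, div_mul_eq_mul_div, RCLike.conj_mul, div_eq_iff hzc, sq]
      -- perturbation direction
      set a' : 𝕜 := cd (S (ee (m + 1))) (k', m, some 0) with ha'
      set b' : 𝕜 := cd (S (ee (m + 1))) (k', m, none) with hb'
      have hb'n : 3 / 4 ≤ ‖b'‖ := by
        have h1 := hdiff (ee (m + 1)) (k', m, none) (ee_norm (m + 1))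
        have h2 : (ee (m + 1) : L4 𝕜) (m + 1) = 1 := ee_self (m + 1)
        rw [badT_b, h2] at h1
        have h3 := norm_sub_norm_le (1 : 𝕜) b'
        rw [norm_one, norm_sub_rev] at h3
        linarith
      have hb'pos : 0 < ‖b'‖ := by linarith
      have hb'c : ((‖b'‖ : ℝ) : 𝕜) ≠ 0 := by
        rw [Ne, RCLike.ofReal_eq_zero]; exact hb'pos.ne'
      set σ : 𝕜 := (starRingEnd 𝕜) (ω * b') / ((‖b'‖ : ℝ) : 𝕜) with hσ
      have hσn : ‖σ‖ = 1 := by
        rw [hσ, norm_div, RCLike.norm_conj, RCLike.norm_ofReal, abs_of_pos hb'pos, norm_mul, hωn,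
          one_mul, div_self hb'pos.ne']
      have hσb : ω * (σ * b') = ((‖b'‖ : ℝ) : 𝕜) := by
        have e : ω * (σ * b') = ((starRingEnd 𝕜) (ω * b') * (ω * b')) / ((‖b'‖ : ℝ) : 𝕜) := by
          rw [hσ]; ring
        rw [e, RCLike.conj_mul, norm_mul, hωn, one_mul, div_eq_iff hb'c, sq]
      have hcoord' : ∀ i : ℤ, cd (S (ee (m + 1))) (k', m, some i) =
          (ca k' (some i) : 𝕜) * a' + (cb k' (some i) : 𝕜) * b' := fun i => cd_eq _ _ _ _
      have hca : ∀ i : ℤ, |i| ≤ ((k' + 8 : ℕ) : ℤ) → ca k' (some i) = 1 / den k' i :=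
        fun i hi => by simp only [ca, if_pos hi]
      have hcb : ∀ i : ℤ, |i| ≤ ((k' + 8 : ℕ) : ℤ) →
          cb k' (some i) = 2 * cc k' * (i * hh k') / den k' i :=
        fun i hi => by simp only [cb, if_pos hi]
      -- real parts
      have hre : ∀ i : ℤ, |i| ≤ ((k' + 8 : ℕ) : ℤ) → ∀ u v : 𝕜,
          RCLike.re (ω * ((ca k' (some i) : 𝕜) * u + (cb k' (some i) : 𝕜) * v)) * den k' i =
          RCLike.re (ω * u) + 2 * cc k' * (i * hh k') * RCLike.re (ω * v) := by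
        intro i hi u v
        have e : ω * ((ca k' (some i) : 𝕜) * u + (cb k' (some i) : 𝕜) * v) =
            (ca k' (some i) : 𝕜) * (ω * u) + (cb k' (some i) : 𝕜) * (ω * v) := by ring
        rw [e, map_add, RCLike.re_ofReal_mul, RCLike.re_ofReal_mul, hca i hi, hcb i hi]
        have hd := den_pos k' i
        field_simp
      have key := curve (k' + 8) (by omega) (hh k') (cc k') rfl rfl
        (RCLike.re (ω * a)) (RCLike.re (ω * b)) (RCLike.re (ω * (σ * a')))
        (RCLike.re (ω * (σ * b'))) ‖z‖ ?_ (by linarith) hz1 ?_ i₀ hi₀ ?_ ?_ ?_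
      · linarith
      · -- |B| ≤ 1/4
        refine (RCLike.abs_re_le_norm _).trans ?_
        rw [norm_mul, hωn, one_mul]; exact hbn
      · rw [hσb, RCLike.ofReal_re]; exact hb'n
      · -- equality at i₀
        rw [← hre i₀ hi₀ a b, ← hcoord i₀, ← hz, hωz, RCLike.ofReal_re]
        rfl
      · intro i hi
        rw [← hre i hi a b, ← hcoord i]
        have h1 : RCLike.re (ω * cd (S (ee 0)) (k', m, some i)) ≤ ‖z‖ := by
          refine (RCLike.re_le_norm _).trans ?_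
          rw [norm_mul, hωn, one_mul]; exact hzmax i hi
        have hd := den_pos k' i
        calc _ ≤ ‖z‖ * den k' i := by gcongr
          _ = _ := rfl
      · intro s hs i hi
        have hsum : RCLike.re (ω * ((ca k' (some i) : 𝕜) * (a + ((s : ℝ) : 𝕜) * (σ * a')) +
            (cb k' (some i) : 𝕜) * (b + ((s : ℝ) : 𝕜) * (σ * b')))) ≤ 1 + s ^ 4 / 4 := by
          have e : (ca k' (some i) : 𝕜) * (a + ((s : ℝ) : 𝕜) * (σ * a')) +
            (cb k' (some i) : 𝕜) * (b + ((s : ℝ) : 𝕜) * (σ * b')) =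
            cd (S (ee 0 + (((s : ℝ) : 𝕜) * σ) • ee (m + 1))) (k', m, some i) := by
            rw [map_add, map_smul, cd_add, cd_smul, hcoord, hcoord']
            ring
          rw [e]
          refine (RCLike.re_le_norm _).trans ?_
          rw [norm_mul, hωn, one_mul]
          refine (norm_cd _ _).trans ?_
          refine (S.le_opNorm _).trans ?_
          rw [hS1, one_mul]
          refine (two_norm m _).trans (le_of_eq ?_)
          rw [norm_mul, hσn, mul_one, RCLike.norm_ofReal]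
          have : |s| ^ 4 = s ^ 4 := by
            rw [show (4 : ℕ) = 2 * 2 from rfl, pow_mul, pow_mul, sq_abs]
          rw [this]
        have h2 := hre i hi (a + ((s : ℝ) : 𝕜) * (σ * a')) (b + ((s : ℝ) : 𝕜) * (σ * b'))
        have e1 : RCLike.re (ω * (a + ((s : ℝ) : 𝕜) * (σ * a'))) =
            RCLike.re (ω * a) + s * RCLike.re (ω * (σ * a')) := by
          rw [mul_add, map_add, mul_left_comm, RCLike.re_ofReal_mul]
        have e2 : RCLike.re (ω * (b + ((s : ℝ) : 𝕜) * (σ * b'))) =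
            RCLike.re (ω * b) + s * RCLike.re (ω * (σ * b')) := by
          rw [mul_add, map_add, mul_left_comm, RCLike.re_ofReal_mul]
        rw [e1, e2] at h2
        rw [← h2]
        have hd := den_pos k' i
        calc _ ≤ (1 + s ^ 4 / 4) * den k' i := by gcongr
          _ = _ := rfl
    · have h1 := hdiff (ee 0) (k', m, j) (ee_norm 0)
      rw [badT_ne _ _ _ _ _ hkk, sub_zero] at h1
      linarith
  rw [hS2] at hbound
  have : 0 < hh k ^ 4 := by positivity
  linarith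

end

end Pool.Agent.Lib.MP_a54cc7_an
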