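import Pool.Agent.Lib.MP_a54cc7_an.Defs

set_option autoImplicit false

namespace Pool.Agent.Lib.MP_a54cc7_an

open scoped ENNReal
open Filter Topology

noncomputable section

def hh (k : ℕ) : ℝ := 1 / (2 * (((k + 8 : ℕ)) : ℝ))
def cc (k : ℕ) : ℝ := 64 * hh k ^ 2
def den (k : ℕ) (i : ℤ) : ℝ := 1 + cc k * (i * hh k) ^ 2

def ca (k : ℕ) : Option ℤ → ℝ
  | none => 0
  | some i => if |i| ≤ ((k + 8 : ℕ) : ℤ) then 1 / den k i else 0

def cb (k : ℕ) : Option ℤ → ℝ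
  | none => 1
  | some i => if |i| ≤ ((k + 8 : ℕ) : ℤ) then 2 * cc k * (i * hh k) / den k i else 0

lemma hh_pos (k : ℕ) : 0 < hh k := by unfold hh; positivity
lemma hh_le (k : ℕ) : hh k ≤ 1 / 16 := by
  unfold hh
  apply one_div_le_one_div_of_le (by norm_num)
  push_cast
  have : (0 : ℝ) ≤ k := Nat.cast_nonneg k
  linarith
lemma cc_pos (k : ℕ) : 0 < cc k := by unfold cc; have := hh_pos k; positivity
lemma cc_le (k : ℕ) : cc k ≤ 1 / 4 := by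
  unfold cc
  have := hh_pos k
  have := hh_le k
  nlinarith
lemma den_ge (k : ℕ) (i : ℤ) : 1 ≤ den k i := by
  unfold den
  have := cc_pos k
  have : 0 ≤ cc k * (i * hh k) ^ 2 := by positivity
  linarith
lemma den_pos (k : ℕ) (i : ℤ) : 0 < den k i := lt_of_lt_of_le one_pos (den_ge k i)

lemma tau_le (k : ℕ) (i : ℤ) (hi : |i| ≤ ((k + 8 : ℕ) : ℤ)) : |(i : ℝ) * hh k| ≤ 1 / 2 := by
  have h1 : |(i : ℝ)| ≤ ((k + 8 : ℕ) : ℝ) := by exact_mod_cast hi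
  rw [abs_mul, abs_of_pos (hh_pos k)]
  calc |(i : ℝ)| * hh k ≤ ((k + 8 : ℕ) : ℝ) * hh k := by
        gcongr
        exact (hh_pos k).le
    _ = 1 / 2 := by unfold hh; field_simp

lemma ca_nonneg (k : ℕ) (j : Option ℤ) : 0 ≤ ca k j := by
  cases j with
  | none => simp [ca]
  | some i =>
    simp only [ca]
    split_ifs
    · exact (one_div_pos.mpr (den_pos k i)).le
    · exact le_rfl

lemma ca_le_one (k : ℕ) (j : Option ℤ) : ca k j ≤ 1 := by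
  cases j with
  | none => simp [ca]
  | some i =>
    simp only [ca]
    split_ifs
    · rw [div_le_one (den_pos k i)]; exact den_ge k i
    · exact zero_le_one

lemma abs_cb_some (k : ℕ) (i : ℤ) : |cb k (some i)| ≤ cc k := by
  simp only [cb]
  split_ifs with hi
  · rw [abs_div, abs_of_pos (den_pos k i), div_le_iff₀ (den_pos k i)]
    have h1 := tau_le k i hi
    have h2 := cc_pos k
    rw [abs_mul, abs_of_pos (by positivity : 0 < 2 * cc k)]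
    have h3 := den_ge k i
    nlinarith
  · rw [abs_zero]; exact (cc_pos k).le

lemma abs_cb (k : ℕ) (j : Option ℤ) : |cb k j| ≤ 1 := by
  cases j with
  | none => simp [cb]
  | some i =>
    have := abs_cb_some k i
    have := cc_le k
    linarith

lemma ca_zero (k : ℕ) : ca k (some 0) = 1 := by
  simp [ca, den]
  positivity

lemma cb_zero (k : ℕ) : cb k (some 0) = 0 := by
  simp [cb]

variable (𝕜 : Type*) [RCLike 𝕜]

abbrev Idx := ℕ × ℕ × Option ℤ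
abbrev Big := lp (fun _ : Idx => 𝕜) ∞

variable {𝕜}

/-- uniform condition at level `n` -/
def Lev (a b : ℕ → 𝕜) (ε : ℝ) (n : ℕ) : Prop :=
  ∀ m, (2 ^ n ≤ m → ‖b m‖ ≤ ε) ∧ ‖a m - a (m % 2 ^ n)‖ ≤ ε

def Ev (a b : ℕ → 𝕜) : Prop := ∀ ε : ℝ, 0 < ε → ∃ N, ∀ n, N ≤ n → Lev a b ε n

lemma Ev.add {a b a' b' : ℕ → 𝕜} (h : Ev a b) (h' : Ev a' b') :
    Ev (fun m => a m + a' m) (fun m => b m + b' m) := by
  intro ε hε
  obtain ⟨N, hN⟩ := h (ε / 2) (by positivity)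
  obtain ⟨N', hN'⟩ := h' (ε / 2) (by positivity)
  refine ⟨max N N', fun n hn m => ?_⟩
  obtain ⟨h1, h2⟩ := hN n ((le_max_left _ _).trans hn) m
  obtain ⟨h3, h4⟩ := hN' n ((le_max_right _ _).trans hn) m
  constructor
  · intro hm
    calc ‖b m + b' m‖ ≤ ‖b m‖ + ‖b' m‖ := norm_add_le _ _
      _ ≤ ε / 2 + ε / 2 := add_le_add (h1 hm) (h3 hm)
      _ = ε := by ring
  · calc ‖a m + a' m - (a (m % 2 ^ n) + a' (m % 2 ^ n))‖
        = ‖(a m - a (m % 2 ^ n)) + (a' m - a' (m % 2 ^ n))‖ := by congr 1; ring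
      _ ≤ ‖a m - a (m % 2 ^ n)‖ + ‖a' m - a' (m % 2 ^ n)‖ := norm_add_le _ _
      _ ≤ ε / 2 + ε / 2 := add_le_add h2 h4
      _ = ε := by ring

lemma Ev.smul {a b : ℕ → 𝕜} (h : Ev a b) (c : 𝕜) :
    Ev (fun m => c * a m) (fun m => c * b m) := by
  intro ε hε
  obtain ⟨N, hN⟩ := h (ε / (‖c‖ + 1)) (by positivity)
  refine ⟨N, fun n hn m => ?_⟩
  obtain ⟨h1, h2⟩ := hN n hn m
  have h5 : ‖c‖ * (ε / (‖c‖ + 1)) ≤ ε := by
    rw [mul_div_assoc', div_le_iff₀ (by positivity)]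
    nlinarith [norm_nonneg c]
  constructor
  · intro hm
    rw [norm_mul]
    exact (mul_le_mul_of_nonneg_left (h1 hm) (norm_nonneg c)).trans h5
  · rw [← mul_sub, norm_mul]
    exact (mul_le_mul_of_nonneg_left h2 (norm_nonneg c)).trans h5

lemma Ev.zero : Ev (fun _ => (0 : 𝕜)) (fun _ => 0) := by
  intro ε hε
  exact ⟨0, fun n _ m => ⟨fun _ => by simpa using hε.le, by simpa using hε.le⟩⟩

lemma Ev.of_close {a b : ℕ → 𝕜}
    (h : ∀ ε : ℝ, 0 < ε → ∃ a' b' : ℕ → 𝕜, Ev a' b' ∧ ∀ m, ‖a m - a' m‖ ≤ ε ∧ ‖b m - b' m‖ ≤ ε) :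
    Ev a b := by
  intro ε hε
  obtain ⟨a', b', h', hc⟩ := h (ε / 3) (by positivity)
  obtain ⟨N, hN⟩ := h' (ε / 3) (by positivity)
  refine ⟨N, fun n hn m => ?_⟩
  obtain ⟨h1, h2⟩ := hN n hn m
  constructor
  · intro hm
    calc ‖b m‖ = ‖(b m - b' m) + b' m‖ := by congr 1; ring
      _ ≤ ‖b m - b' m‖ + ‖b' m‖ := norm_add_le _ _
      _ ≤ ε / 3 + ε / 3 := add_le_add (hc m).2 (h1 hm)
      _ ≤ ε := by linarith
  · calc ‖a m - a (m % 2 ^ n)‖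
        = ‖(a m - a' m) + (a' m - a' (m % 2 ^ n)) - (a (m % 2 ^ n) - a' (m % 2 ^ n))‖ := by
          congr 1; ring
      _ ≤ ‖(a m - a' m) + (a' m - a' (m % 2 ^ n))‖ + ‖a (m % 2 ^ n) - a' (m % 2 ^ n)‖ :=
          norm_sub_le _ _
      _ ≤ (‖a m - a' m‖ + ‖a' m - a' (m % 2 ^ n)‖) + ‖a (m % 2 ^ n) - a' (m % 2 ^ n)‖ := by
          gcongr; exact norm_add_le _ _
      _ ≤ (ε / 3 + ε / 3) + ε / 3 :=
          add_le_add (add_le_add (hc m).1 h2) (hc _).1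
      _ = ε := by ring

variable (𝕜)

def Ysub : Submodule 𝕜 (Big 𝕜) where
  carrier := {f | (∀ k m j, f (k, m, j) = (ca k j : 𝕜) * f (k, m, some 0) +
      (cb k j : 𝕜) * f (k, m, none)) ∧
      ∀ k, Ev (fun m => f (k, m, some 0)) (fun m => f (k, m, none))}
  zero_mem' := by
    refine ⟨fun k m j => by simp, fun k => ?_⟩
    exact Ev.zero
  add_mem' := by
    rintro f g ⟨hf1, hf2⟩ ⟨hg1, hg2⟩
    refine ⟨fun k m j => ?_, fun k => (hf2 k).add (hg2 k)⟩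
    have e : ∀ p, (f + g) p = f p + g p := fun _ => rfl
    simp only [e]
    rw [hf1 k m j, hg1 k m j]
    ring
  smul_mem' := by
    rintro c f ⟨hf1, hf2⟩
    refine ⟨fun k m j => ?_, fun k => (hf2 k).smul c⟩
    have e : ∀ p, (c • f) p = c * f p := fun _ => rfl
    simp only [e]
    rw [hf1 k m j]
    ring

variable {𝕜}

lemma norm_ap (f : Ysub 𝕜) (p : Idx) : ‖(f : Big 𝕜) p‖ ≤ ‖f‖ :=
  lp.norm_apply_le_norm ENNReal.top_ne_zero (f : Big 𝕜) p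

lemma norm_le_of (f : Ysub 𝕜) {C : ℝ} (hC : 0 ≤ C) (h : ∀ p, ‖(f : Big 𝕜) p‖ ≤ C) : ‖f‖ ≤ C :=
  lp.norm_le_of_forall_le hC h

lemma isClosed_Ysub : IsClosed (Ysub 𝕜 : Set (Big 𝕜)) := by
  rw [← closure_subset_iff_isClosed]
  intro f hf
  rw [Metric.mem_closure_iff] at hf
  have hclose : ∀ ε : ℝ, 0 < ε → ∃ g ∈ Ysub 𝕜, ∀ p, ‖f p - g p‖ ≤ ε := by
    intro ε hε
    obtain ⟨g, hg, hd⟩ := hf ε hε
    refine ⟨g, hg, fun p => ?_⟩
    have := lp.norm_apply_le_norm ENNReal.top_ne_zero (f - g) p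
    rw [dist_eq_norm] at hd
    exact this.trans hd.le
  refine ⟨fun k m j => ?_, fun k => ?_⟩
  · rw [← sub_eq_zero, ← norm_le_zero_iff]
    refine le_of_forall_pos_le_add fun ε hε => ?_
    obtain ⟨g, hg, hd⟩ := hclose (ε / 3) (by positivity)
    have e : f (k, m, j) - ((ca k j : 𝕜) * f (k, m, some 0) + (cb k j : 𝕜) * f (k, m, none)) =
        (f (k, m, j) - g (k, m, j)) - ((ca k j : 𝕜) * (f (k, m, some 0) - g (k, m, some 0)) +
          (cb k j : 𝕜) * (f (k, m, none) - g (k, m, none))) := by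
      rw [hg.1 k m j]; ring
    rw [e, zero_add]
    have h1 : ‖(ca k j : 𝕜) * (f (k, m, some 0) - g (k, m, some 0))‖ ≤ ε / 3 := by
      rw [norm_mul, RCLike.norm_ofReal, abs_of_nonneg (ca_nonneg k j)]
      calc _ ≤ 1 * (ε / 3) := mul_le_mul (ca_le_one k j) (hd _) (norm_nonneg _) zero_le_one
        _ = _ := one_mul _
    have h2 : ‖(cb k j : 𝕜) * (f (k, m, none) - g (k, m, none))‖ ≤ ε / 3 := by
      rw [norm_mul, RCLike.norm_ofReal]
      calc _ ≤ 1 * (ε / 3) := mul_le_mul (abs_cb k j) (hd _) (norm_nonneg _) zero_le_one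
        _ = _ := one_mul _
    calc _ ≤ ‖f (k, m, j) - g (k, m, j)‖ + ‖(ca k j : 𝕜) * (f (k, m, some 0) - g (k, m, some 0)) +
          (cb k j : 𝕜) * (f (k, m, none) - g (k, m, none))‖ := norm_sub_le _ _
      _ ≤ ε / 3 + (ε / 3 + ε / 3) := add_le_add (hd _) ((norm_add_le _ _).trans (add_le_add h1 h2))
      _ = ε := by ring
  · refine Ev.of_close fun ε hε => ?_
    obtain ⟨g, hg, hd⟩ := hclose ε hε
    exact ⟨_, _, hg.2 k, fun m => ⟨hd _, hd _⟩⟩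

instance : CompleteSpace (Ysub 𝕜) := isClosed_Ysub.completeSpace_coe

/-- data for a block -/
def Good (a b : ℕ → 𝕜) : Prop := (∃ C, ∀ m, ‖a m‖ ≤ C ∧ ‖b m‖ ≤ C) ∧ Ev a b

open Classical in
def patchFun (f : Idx → 𝕜) (k : ℕ) (a b : ℕ → 𝕜) : Idx → 𝕜 := fun p =>
  if p.1 = k then (ca k p.2.2 : 𝕜) * a p.2.1 + (cb k p.2.2 : 𝕜) * b p.2.1 else f p

lemma patchFun_same (f : Idx → 𝕜) (k : ℕ) (a b : ℕ → 𝕜) (m : ℕ) (j : Option ℤ) :
    patchFun f k a b (k, m, j) = (ca k j : 𝕜) * a m + (cb k j : 𝕜) * b m := by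
  simp [patchFun]

lemma patchFun_ne (f : Idx → 𝕜) (k : ℕ) (a b : ℕ → 𝕜) (k' m : ℕ) (j : Option ℤ) (h : k' ≠ k) :
    patchFun f k a b (k', m, j) = f (k', m, j) := by
  simp [patchFun, h]

lemma norm_comb_le (k : ℕ) (j : Option ℤ) (x y : 𝕜) {C D : ℝ} (hx : ‖x‖ ≤ C) (hy : ‖y‖ ≤ D) :
    ‖(ca k j : 𝕜) * x + (cb k j : 𝕜) * y‖ ≤ C + D := by
  have hC : 0 ≤ C := (norm_nonneg _).trans hx
  have hD : 0 ≤ D := (norm_nonneg _).trans hy
  refine (norm_add_le _ _).trans ?_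
  rw [norm_mul, norm_mul, RCLike.norm_ofReal, RCLike.norm_ofReal, abs_of_nonneg (ca_nonneg k j)]
  refine add_le_add ?_ ?_
  · calc _ ≤ 1 * C := mul_le_mul (ca_le_one k j) hx (norm_nonneg _) zero_le_one
      _ = C := one_mul _
  · calc _ ≤ 1 * D := mul_le_mul (abs_cb k j) hy (norm_nonneg _) zero_le_one
      _ = D := one_mul _

lemma patch_memlp (f : Big 𝕜) (k : ℕ) {a b : ℕ → 𝕜} (h : Good a b) :
    Memℓp (patchFun f k a b) ∞ := by
  obtain ⟨⟨C, hC⟩, -⟩ := h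
  refine memℓp_infty ⟨max ‖f‖ (C + C), ?_⟩
  rintro _ ⟨⟨k', m, j⟩, rfl⟩
  by_cases hk : k' = k
  · subst hk
    show ‖patchFun f k' a b (k', m, j)‖ ≤ _
    rw [patchFun_same]
    exact (norm_comb_le k' j _ _ (hC m).1 (hC m).2).trans (le_max_right _ _)
  · show ‖patchFun f k a b (k', m, j)‖ ≤ _
    rw [patchFun_ne _ _ _ _ _ _ _ hk]
    exact (lp.norm_apply_le_norm ENNReal.top_ne_zero f _).trans (le_max_left _ _)

def patch (f : Ysub 𝕜) (k : ℕ) (a b : ℕ → 𝕜) (h : Good a b) : Ysub 𝕜 :=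
  ⟨⟨patchFun (f : Big 𝕜) k a b, patch_memlp _ k h⟩, by
    refine ⟨fun k' m j => ?_, fun k' => ?_⟩
    · show patchFun (f : Big 𝕜) k a b (k', m, j) = (ca k' j : 𝕜) *
        patchFun (f : Big 𝕜) k a b (k', m, some 0) +
        (cb k' j : 𝕜) * patchFun (f : Big 𝕜) k a b (k', m, none)
      by_cases hk : k' = k
      · subst hk
        simp only [patchFun_same, ca_zero, cb_zero]
        simp [ca, cb]
      · simp only [patchFun_ne _ _ _ _ _ _ _ hk]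
        exact f.2.1 k' m j
    · show Ev (fun m => patchFun (f : Big 𝕜) k a b (k', m, some 0))
        (fun m => patchFun (f : Big 𝕜) k a b (k', m, none))
      by_cases hk : k' = k
      · subst hk
        simp only [patchFun_same, ca_zero, cb_zero]
        simpa [ca, cb] using h.2
      · simp only [patchFun_ne _ _ _ _ _ _ _ hk]
        exact f.2.2 k'⟩

lemma patch_same (f : Ysub 𝕜) (k : ℕ) (a b : ℕ → 𝕜) (h : Good a b) (m : ℕ) (j : Option ℤ) :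
    (patch f k a b h : Big 𝕜) (k, m, j) = (ca k j : 𝕜) * a m + (cb k j : 𝕜) * b m :=
  patchFun_same _ _ _ _ _ _

lemma patch_ne (f : Ysub 𝕜) (k : ℕ) (a b : ℕ → 𝕜) (h : Good a b) (k' m : ℕ) (j : Option ℤ)
    (hk : k' ≠ k) : (patch f k a b h : Big 𝕜) (k', m, j) = (f : Big 𝕜) (k', m, j) :=
  patchFun_ne _ _ _ _ _ _ _ hk

lemma patch_a (f : Ysub 𝕜) (k : ℕ) (a b : ℕ → 𝕜) (h : Good a b) (m : ℕ) :
    (patch f k a b h : Big 𝕜) (k, m, some 0) = a m := by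
  rw [patch_same, ca_zero, cb_zero]; simp

lemma patch_b (f : Ysub 𝕜) (k : ℕ) (a b : ℕ → 𝕜) (h : Good a b) (m : ℕ) :
    (patch f k a b h : Big 𝕜) (k, m, none) = b m := by
  rw [patch_same]; simp [ca, cb]

lemma coord_eq (f : Ysub 𝕜) (k m : ℕ) (j : Option ℤ) : (f : Big 𝕜) (k, m, j) =
    (ca k j : 𝕜) * (f : Big 𝕜) (k, m, some 0) + (cb k j : 𝕜) * (f : Big 𝕜) (k, m, none) :=
  f.2.1 k m j

lemma ext_ab (f g : Ysub 𝕜) (ha : ∀ k m, (f : Big 𝕜) (k, m, some 0) = (g : Big 𝕜) (k, m, some 0))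
    (hb : ∀ k m, (f : Big 𝕜) (k, m, none) = (g : Big 𝕜) (k, m, none)) : f = g := by
  apply Subtype.ext
  apply Subtype.ext
  funext p
  obtain ⟨k, m, j⟩ := p
  show (f : Big 𝕜) (k, m, j) = (g : Big 𝕜) (k, m, j)
  rw [coord_eq f, coord_eq g, ha, hb]

variable (𝕜) in
/-- the target space -/
def YT : Type _ := Ysub 𝕜

instance : NormedAddCommGroup (YT 𝕜) := inferInstanceAs (NormedAddCommGroup (Ysub 𝕜))
instance : NormedSpace 𝕜 (YT 𝕜) := inferInstanceAs (NormedSpace 𝕜 (Ysub 𝕜))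
instance : CompleteSpace (YT 𝕜) := inferInstanceAs (CompleteSpace (Ysub 𝕜))

/-- coordinates -/
def cd (f : YT 𝕜) (p : Idx) : 𝕜 := ((show Ysub 𝕜 from f) : Big 𝕜) p

lemma cd_add (f g : YT 𝕜) (p : Idx) : cd (f + g) p = cd f p + cd g p := rfl
lemma cd_sub (f g : YT 𝕜) (p : Idx) : cd (f - g) p = cd f p - cd g p := rfl
lemma cd_smul (c : 𝕜) (f : YT 𝕜) (p : Idx) : cd (c • f) p = c * cd f p := rfl
lemma cd_zero (p : Idx) : cd (0 : YT 𝕜) p = 0 := rfl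
lemma norm_cd (f : YT 𝕜) (p : Idx) : ‖cd f p‖ ≤ ‖f‖ := norm_ap f p
lemma yt_norm_le (f : YT 𝕜) {C : ℝ} (hC : 0 ≤ C) (h : ∀ p, ‖cd f p‖ ≤ C) : ‖f‖ ≤ C :=
  norm_le_of f hC h
lemma cd_eq (f : YT 𝕜) (k m : ℕ) (j : Option ℤ) : cd f (k, m, j) =
    (ca k j : 𝕜) * cd f (k, m, some 0) + (cb k j : 𝕜) * cd f (k, m, none) := coord_eq f k m j
lemma yt_ext (f g : YT 𝕜) (ha : ∀ k m, cd f (k, m, some 0) = cd g (k, m, some 0))
    (hb : ∀ k m, cd f (k, m, none) = cd g (k, m, none)) : f = g := ext_ab f g ha hb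
lemma yt_ev (f : YT 𝕜) (k : ℕ) :
    Ev (fun m => cd f (k, m, some 0)) (fun m => cd f (k, m, none)) := f.2.2 k

def pt (f : YT 𝕜) (k : ℕ) (a b : ℕ → 𝕜) (h : Good a b) : YT 𝕜 := patch f k a b h

lemma pt_same (f : YT 𝕜) (k : ℕ) (a b : ℕ → 𝕜) (h : Good a b) (m : ℕ) (j : Option ℤ) :
    cd (pt f k a b h) (k, m, j) = (ca k j : 𝕜) * a m + (cb k j : 𝕜) * b m :=
  patch_same f k a b h m j
lemma pt_ne (f : YT 𝕜) (k : ℕ) (a b : ℕ → 𝕜) (h : Good a b) (k' m : ℕ) (j : Option ℤ)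
    (hk : k' ≠ k) : cd (pt f k a b h) (k', m, j) = cd f (k', m, j) :=
  patch_ne f k a b h k' m j hk
lemma pt_a (f : YT 𝕜) (k : ℕ) (a b : ℕ → 𝕜) (h : Good a b) (m : ℕ) :
    cd (pt f k a b h) (k, m, some 0) = a m := patch_a f k a b h m
lemma pt_b (f : YT 𝕜) (k : ℕ) (a b : ℕ → 𝕜) (h : Good a b) (m : ℕ) :
    cd (pt f k a b h) (k, m, none) = b m := patch_b f k a b h m

/-- coordinate as a functional -/
def cdL (p : Idx) : YT 𝕜 →L[𝕜] 𝕜 :=
  LinearMap.mkContinuous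
    { toFun := fun f => cd f p
      map_add' := fun f g => cd_add f g p
      map_smul' := fun c f => cd_smul c f p } 1
    (fun f => by rw [one_mul]; exact norm_cd f p)

lemma cdL_apply (p : Idx) (f : YT 𝕜) : cdL p f = cd f p := rfl

end

end Pool.Agent.Lib.MP_a54cc7_an
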